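import Pool.Agent.H77.Thin.Defs

/-!
# Strings and initial segments
-/

set_option autoImplicit false

namespace Pool.Agent.H77.Thin

@[simp] theorem seg_length (x : ℕ → Bool) (n : ℕ) : (seg x n).length = n := by simp [seg]

theorem seg_getElem? (x : ℕ → Bool) {n k : ℕ} (h : k < n) : (seg x n)[k]? = some (x k) := by
  simp [seg, h]

theorem seg_getElem?_ge (x : ℕ → Bool) {n k : ℕ} (h : n ≤ k) : (seg x n)[k]? = none := by
  simp [seg, h]

theorem seg_take (x : ℕ → Bool) {n k : ℕ} (h : k ≤ n) : (seg x n).take k = seg x k := by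
  apply List.ext_getElem?
  intro i
  rw [List.getElem?_take]
  split_ifs with hi
  · rw [seg_getElem? x (lt_of_lt_of_le hi h), seg_getElem? x hi]
  · rw [seg_getElem?_ge x (not_lt.1 hi)]

theorem seg_prefix (x : ℕ → Bool) {k n : ℕ} (h : k ≤ n) : seg x k <+: seg x n := by
  rw [← seg_take x h]
  exact List.take_prefix _ _

theorem seg_succ (x : ℕ → Bool) (n : ℕ) : seg x (n + 1) = seg x n ++ [x n] := by
  simp [seg, List.range_succ]

/-- `ρ` is an initial segment of `x`. -/
def Ini (ρ : List Bool) (x : ℕ → Bool) : Prop := seg x ρ.length = ρ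

theorem ini_iff_prefix {ρ : List Bool} {x : ℕ → Bool} {n : ℕ} (h : ρ.length ≤ n) :
    Ini ρ x ↔ ρ <+: seg x n := by
  unfold Ini
  rw [List.prefix_iff_eq_take, seg_take x h]
  exact eq_comm

theorem Ini.pre {ρ : List Bool} {x : ℕ → Bool} {n : ℕ} (h : Ini ρ x) (hn : ρ.length ≤ n) :
    ρ <+: seg x n := (ini_iff_prefix hn).1 h

theorem ini_of_prefix {ρ : List Bool} {x : ℕ → Bool} {n : ℕ} (h : ρ <+: seg x n) : Ini ρ x := by
  have h1 : ρ.length ≤ n := by
    have := h.length_le
    rwa [seg_length] at this
  exact (ini_iff_prefix h1).2 h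

theorem ini_seg (x : ℕ → Bool) (n : ℕ) : Ini (seg x n) x := by
  unfold Ini
  rw [seg_length]

theorem ini_mono {ρ τ : List Bool} {x : ℕ → Bool} (h : ρ <+: τ) (hτ : Ini τ x) : Ini ρ x := by
  rw [Ini] at hτ
  rw [← hτ] at h
  exact ini_of_prefix h

theorem ini_comparable {ρ τ : List Bool} {x : ℕ → Bool} (h : Ini ρ x) (hτ : Ini τ x) :
    ρ <+: τ ∨ τ <+: ρ := by
  rcases le_total ρ.length τ.length with h1 | h1
  · left
    have := h.pre h1
    rwa [hτ] at this
  · right
    have := hτ.pre h1
    rwa [h] at this

theorem ini_iff_getElem {ρ : List Bool} {x : ℕ → Bool} :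
    Ini ρ x ↔ ∀ n b, ρ[n]? = some b → x n = b := by
  constructor
  · intro h n b hb
    have hn : n < ρ.length := by
      by_contra hn
      rw [List.getElem?_eq_none (not_lt.1 hn)] at hb
      exact absurd hb (by simp)
    have h1 := seg_getElem? x hn
    rw [h, hb] at h1
    exact (Option.some.inj h1).symm
  · intro h
    apply List.ext_getElem?
    intro i
    by_cases hi : i < ρ.length
    · rw [seg_getElem? x hi, List.getElem?_eq_getElem hi, h i _ (List.getElem?_eq_getElem hi)]
    · rw [seg_getElem?_ge x (not_lt.1 hi), List.getElem?_eq_none (not_lt.1 hi)]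

theorem isOpen_ini (ρ : List Bool) : IsOpen {x : ℕ → Bool | Ini ρ x} := by
  have : {x : ℕ → Bool | Ini ρ x} = ⋂ n ∈ Finset.range ρ.length, {x | x n = (ρ[n]?).getD false} := by
    ext x
    simp only [Set.mem_ofPred_eq, Set.mem_iInter, Finset.mem_range, ini_iff_getElem]
    constructor
    · intro h n hn
      exact h n _ (by rw [List.getElem?_eq_getElem hn]; simp)
    · intro h n b hb
      have hn : n < ρ.length := by
        by_contra hn
        rw [List.getElem?_eq_none (not_lt.1 hn)] at hb
        exact absurd hb (by simp)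
      rw [h n hn, hb]
      rfl
  rw [this]
  refine isOpen_biInter_finset fun n _ => ?_
  have h1 : Continuous fun x : ℕ → Bool => x n := continuous_apply n
  exact (isOpen_discrete ({(ρ[n]?).getD false} : Set Bool)).preimage h1

theorem isClosed_ini (ρ : List Bool) : IsClosed {x : ℕ → Bool | Ini ρ x} := by
  have : {x : ℕ → Bool | Ini ρ x} = ⋂ n ∈ Finset.range ρ.length, {x | x n = (ρ[n]?).getD false} := by
    ext x
    simp only [Set.mem_ofPred_eq, Set.mem_iInter, Finset.mem_range, ini_iff_getElem]
    constructor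
    · intro h n hn
      exact h n _ (by rw [List.getElem?_eq_getElem hn]; simp)
    · intro h n b hb
      have hn : n < ρ.length := by
        by_contra hn
        rw [List.getElem?_eq_none (not_lt.1 hn)] at hb
        exact absurd hb (by simp)
      rw [h n hn, hb]
      rfl
  rw [this]
  refine isClosed_biInter fun n _ => ?_
  have h1 : Continuous fun x : ℕ → Bool => x n := continuous_apply n
  exact (isClosed_discrete ({(ρ[n]?).getD false} : Set Bool)).preimage h1

/-- The sets of points all of whose initial segments lie in a tree are closed. -/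
theorem isClosed_paths (T : List Bool → Prop) : IsClosed {x : ℕ → Bool | ∀ n, T (seg x n)} := by
  have : {x : ℕ → Bool | ∀ n, T (seg x n)} = ⋂ n, {x | T (seg x n)} := by
    ext x; simp
  rw [this]
  refine isClosed_iInter fun n => ?_
  rw [← isOpen_compl_iff, isOpen_iff_forall_mem_open]
  intro x hx
  refine ⟨{z | Ini (seg x n) z}, ?_, isOpen_ini _, ini_seg x n⟩
  intro z hz
  simp only [Set.mem_ofPred_eq, Ini, seg_length] at hz
  simp only [Set.mem_compl_iff, Set.mem_ofPred_eq] at hx ⊢
  rwa [hz]

/-- All strings of length `n`. -/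
def strs : ℕ → List (List Bool) :=
  fun n => Nat.rec [[]] (fun _ L => L.flatMap fun σ => [σ ++ [false], σ ++ [true]]) n

theorem strs_zero : strs 0 = [[]] := rfl

theorem strs_succ (n : ℕ) :
    strs (n + 1) = (strs n).flatMap fun σ => [σ ++ [false], σ ++ [true]] := rfl

theorem mem_strs {n : ℕ} {σ : List Bool} : σ ∈ strs n ↔ σ.length = n := by
  induction n generalizing σ with
  | zero => simp [strs_zero]
  | succ n ih =>
    rw [strs_succ, List.mem_flatMap]
    constructor
    · rintro ⟨τ, hτ, hσ⟩
      have := ih.1 hτ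
      simp only [List.mem_cons, List.not_mem_nil, or_false] at hσ
      rcases hσ with rfl | rfl <;> simp [this]
    · intro h
      have hne : σ ≠ [] := by
        rintro rfl
        simp at h
      obtain ⟨τ, b, rfl⟩ := List.eq_nil_or_concat σ |>.resolve_left hne
      refine ⟨τ, ih.2 (by simpa using h), ?_⟩
      cases b <;> simp

/-- Comparability of strings. -/
def cmp (σ τ : List Bool) : Bool :=
  decide (τ.take σ.length = σ) || decide (σ.take τ.length = τ)

theorem cmp_iff {σ τ : List Bool} : cmp σ τ = true ↔ σ <+: τ ∨ τ <+: σ := by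
  simp only [cmp, Bool.or_eq_true, decide_eq_true_eq]
  rw [List.prefix_iff_eq_take, List.prefix_iff_eq_take]
  exact or_congr eq_comm eq_comm

theorem cmp_false_iff {σ τ : List Bool} : cmp σ τ = false ↔ ¬ σ <+: τ ∧ ¬ τ <+: σ := by
  rw [← Bool.not_eq_true, cmp_iff, not_or]

/-- `ρ` looks extendible in the tree `T` at stage `s`. -/
def alive (T : List Bool → Bool) (s : ℕ) (ρ : List Bool) : Bool :=
  (strs s).any fun σ => cmp σ ρ && T σ

theorem alive_iff {T : List Bool → Bool} {s : ℕ} {ρ : List Bool} :
    alive T s ρ = true ↔ ∃ σ : List Bool, σ.length = s ∧ (σ <+: ρ ∨ ρ <+: σ) ∧ T σ = true := by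
  simp only [alive, List.any_eq_true, mem_strs, Bool.and_eq_true, cmp_iff]

variable {T : List Bool → Bool} (hT : ∀ σ τ : List Bool, σ <+: τ → T τ = true → T σ = true)

include hT

theorem alive_anti {s t : ℕ} (h : s ≤ t) {ρ : List Bool} (ha : alive T t ρ = true) :
    alive T s ρ = true := by
  rw [alive_iff] at ha ⊢
  obtain ⟨σ, h1, h2, h3⟩ := ha
  refine ⟨σ.take s, by simp [h1, h], ?_, hT _ _ (List.take_prefix _ _) h3⟩
  rcases h2 with h2 | h2
  · exact Or.inl ((List.take_prefix _ _).trans h2)
  · rcases le_total s ρ.length with h4 | h4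
    · left
      refine List.prefix_of_prefix_length_le (List.take_prefix _ _) h2 ?_
      simp only [List.length_take]
      omega
    · right
      refine List.prefix_of_prefix_length_le h2 (List.take_prefix _ _) ?_
      simp only [List.length_take]
      omega

omit hT in
theorem alive_of_path {y : ℕ → Bool} (hy : ∀ n, T (seg y n) = true) {ρ : List Bool}
    (hρ : Ini ρ y) (s : ℕ) : alive T s ρ = true := by
  rw [alive_iff]
  exact ⟨seg y s, by simp, ini_comparable (ini_seg y s) hρ, hy s⟩

theorem exists_of_alive {ρ : List Bool} (h : ∀ s, alive T s ρ = true) :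
    ∃ z : ℕ → Bool, (∀ n, T (seg z n) = true) ∧ Ini ρ z := by
  let K : ℕ → Set (ℕ → Bool) := fun n => {z | Ini ρ z ∧ T (seg z n) = true}
  have hK : ∀ n, IsClosed (K n) := by
    intro n
    have h1 := isClosed_paths (fun σ => σ.length = n → T σ = true)
    have h2 : K n = {z | Ini ρ z} ∩ {x | ∀ m, (seg x m).length = n → T (seg x m) = true} := by
      ext z
      simp only [K, Set.mem_ofPred_eq, Set.mem_inter_iff]
      refine and_congr Iff.rfl ⟨?_, ?_⟩
      · intro hz m hm
        rw [seg_length] at hm
        rw [hm]; exact hz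
      · intro hz
        exact hz n (seg_length z n)
    rw [h2]
    exact (isClosed_ini ρ).inter h1
  have hne : ∀ n, (K n).Nonempty := by
    intro n
    obtain ⟨σ, h1, h2, h3⟩ := alive_iff.1 (h (max n ρ.length))
    have h4 : ρ <+: σ := by
      rcases h2 with h2 | h2
      · have : σ = ρ := h2.eq_of_length (by
          have := h2.length_le
          omega)
        rw [this]
      · exact h2
    refine ⟨fun k => (σ[k]?).getD false, ?_, ?_⟩
    · have h5 : Ini σ (fun k => (σ[k]?).getD false) := by
        rw [ini_iff_getElem]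
        intro k b hb
        simp only [hb, Option.getD_some]
      exact ini_mono h4 h5
    · have h5 : Ini σ (fun k => (σ[k]?).getD false) := by
        rw [ini_iff_getElem]
        intro k b hb
        simp only [hb, Option.getD_some]
      refine hT _ σ ?_ h3
      have h6 := seg_prefix (fun k => (σ[k]?).getD false) (show n ≤ σ.length by omega)
      rwa [h5] at h6
  have hanti : ∀ n, K (n + 1) ⊆ K n := by
    rintro n z ⟨h1, h2⟩
    exact ⟨h1, hT _ _ (seg_prefix z (Nat.le_succ n)) h2⟩
  obtain ⟨z, hz⟩ := IsCompact.nonempty_iInter_of_sequence_nonempty_isCompact_isClosed K hanti hne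
    (hK 0).isCompact hK
  rw [Set.mem_iInter] at hz
  exact ⟨z, fun n => (hz n).2, (hz 0).1⟩

end Pool.Agent.H77.Thin
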