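import Pool.Agent.H77.Thin.Basic

/-!
# The measure of cylinders
-/

set_option autoImplicit false

namespace Pool.Agent.H77.Thin

open MeasureTheory

theorem half_singleton (b : Bool) : (PMF.uniformOfFintype Bool).toMeasure {b} = 2⁻¹ := by
  rw [PMF.toMeasure_apply_singleton _ _ (measurableSet_singleton b), PMF.uniformOfFintype_apply]
  simp

theorem coin_ini (σ : List Bool) : coin {z | Ini σ z} = 2⁻¹ ^ σ.length := by
  have h1 : {z : ℕ → Bool | Ini σ z} =
      Set.pi (Finset.range σ.length) (fun n => ({(σ[n]?).getD false} : Set Bool)) := by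
    ext x
    simp only [Set.mem_ofPred_eq, Set.mem_pi, Finset.coe_range, Set.mem_Iio, ini_iff_getElem,
      Set.mem_singleton_iff]
    constructor
    · intro h n hn
      exact h n _ (by rw [List.getElem?_eq_getElem hn]; simp)
    · intro h n b hb
      have hn : n < σ.length := by
        by_contra hn
        rw [List.getElem?_eq_none (not_lt.1 hn)] at hb
        exact absurd hb (by simp)
      rw [h n hn, hb]
      rfl
  rw [h1, coin, Measure.infinitePi_pi _ (fun i _ => measurableSet_singleton _)]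
  simp

theorem sum_half (c : ℕ) : ∑' i : ℕ, (2⁻¹ : ENNReal) ^ (c + i + 1) = 2⁻¹ ^ c := by
  have h1 : ∀ i : ℕ, (2⁻¹ : ENNReal) ^ (c + i + 1) = 2⁻¹ ^ (c + 1) * 2⁻¹ ^ i := by
    intro i
    rw [← pow_add]
    congr 1
    omega
  simp only [h1]
  rw [ENNReal.tsum_mul_left, ENNReal.tsum_geometric, ENNReal.one_sub_inv_two, inv_inv, pow_succ,
    mul_assoc, ENNReal.inv_mul_cancel (by norm_num) (by norm_num), mul_one]

/-- A union of cylinders, the `i`-th of which has length `c + i + 1`. -/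
theorem coin_le (G : ℕ → Set (List Bool)) (hG : ∀ i, (G i).Subsingleton) (c : ℕ)
    (hlen : ∀ i, ∀ σ ∈ G i, σ.length = c + i + 1) {A : Set (ℕ → Bool)}
    (hA : ∀ x ∈ A, ∃ i, ∃ σ ∈ G i, Ini σ x) : coin A ≤ 2⁻¹ ^ c := by
  have h1 : A ⊆ ⋃ i, {x | ∃ σ ∈ G i, Ini σ x} := by
    intro x hx
    rw [Set.mem_iUnion]
    exact hA x hx
  refine (measure_mono h1).trans ((measure_iUnion_le _).trans ?_)
  rw [← sum_half c]
  refine ENNReal.tsum_le_tsum fun i => ?_
  by_cases h2 : (G i).Nonempty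
  · obtain ⟨σ, hσ⟩ := h2
    have h3 : {x : ℕ → Bool | ∃ σ ∈ G i, Ini σ x} ⊆ {x | Ini σ x} := by
      rintro x ⟨τ, hτ, hx⟩
      rw [hG i hτ hσ] at hx
      exact hx
    refine (measure_mono h3).trans ?_
    rw [coin_ini, hlen i σ hσ]
  · have h3 : {x : ℕ → Bool | ∃ σ ∈ G i, Ini σ x} = ∅ := by
      ext x
      simp only [Set.mem_ofPred_eq, Set.mem_empty_iff_false, iff_false]
      rintro ⟨σ, hσ, _⟩
      exact h2 ⟨σ, hσ⟩
    rw [h3]
    simp

theorem null_of_le {A : Set (ℕ → Bool)} (h : ∀ c : ℕ, coin A ≤ 2⁻¹ ^ c) : coin A = 0 := by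
  have h1 : Filter.Tendsto (fun c : ℕ => (2⁻¹ : ENNReal) ^ c) Filter.atTop (nhds 0) :=
    ENNReal.tendsto_pow_atTop_nhds_zero_of_lt_one (by norm_num)
  exact le_antisymm (ge_of_tendsto' h1 h) zero_le

end Pool.Agent.H77.Thin
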