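import Pool.Agent.H77.Thin.Val
import Pool.Agent.H77.Thin.Meas

/-!
# The key lemma for thin classes, and covers by few cylinders
-/

set_option autoImplicit false

namespace Pool.Agent.H77.Thin

open Encodable Nat.Partrec

variable {T : List Bool → Bool} (hTp : Primrec T)
  (hT : ∀ σ τ : List Bool, σ <+: τ → T τ = true → T σ = true)
  (hthin : IsThin {x | ∀ n, T (seg x n) = true})

include hTp hT hthin

/-- The subclass that avoids all events is the trace of a clopen set. -/
theorem clopen_sub {C : ℕ → ℕ → List Bool → Bool}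
    (hCp : Primrec fun a : ℕ × ℕ × List Bool => C a.1 a.2.1 a.2.2) (p : ℕ) :
    ∃ U : Set (ℕ → Bool), IsClopen U ∧
      {z : ℕ → Bool | ∀ n, T (seg z n) = true ∧ ∀ e ∈ (st T (C p) n).1, ¬ e.2 <+: seg z n} =
        {z | ∀ n, T (seg z n) = true} ∩ U := by
  refine hthin.2 _ ?_ ?_
  · refine ⟨fun σ => (T σ && ((st T (C p) σ.length).1.all
      fun e => !decide (σ.take e.2.length = e.2))) = true,
      ComputablePred.computable_iff.2 ⟨_, (prim_subtree hTp hCp p).to_comp, rfl⟩, ?_, ?_⟩
    · intro σ τ h1 h2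
      simp only [Bool.and_eq_true, List.all_eq_true, Bool.not_eq_true',
        decide_eq_false_iff_not] at h2 ⊢
      refine ⟨hT _ _ h1 h2.1, fun e he h3 => ?_⟩
      refine h2.2 e ((hist_mono h1.length_le).subset he) ?_
      have h4 : e.2 <+: τ := (List.prefix_iff_eq_take.2 h3.symm).trans h1
      exact (List.prefix_iff_eq_take.1 h4).symm
    · ext z
      simp only [Set.mem_ofPred_eq, Bool.and_eq_true, List.all_eq_true, Bool.not_eq_true',
        decide_eq_false_iff_not, seg_length]
      refine forall_congr' fun n => and_congr Iff.rfl ?_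
      refine forall_congr' fun e => forall_congr' fun _ => not_congr ?_
      rw [List.prefix_iff_eq_take]
      exact eq_comm
  · intro z hz n
    exact (hz n).1

/-- The key lemma for thin classes. -/
theorem caught {C : ℕ → ℕ → List Bool → Bool}
    (hCp : Primrec fun a : ℕ × ℕ × List Bool => C a.1 a.2.1 a.2.2) (p : ℕ)
    (hC : ∀ i, ∀ σ τ : List Bool, σ <+: τ → C p i σ = true → C p i τ = true)
    {y : ℕ → Bool} (hy : ∀ n, T (seg y n) = true) (hCy : ∀ i, ∃ l, C p i (seg y l) = true) :
    ∃ s, ∃ e ∈ (st T (C p) s).1, Ini e.2 y :=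
  exists_event hT hC hy hCy (clopen_sub hTp hT hthin hCp p)

/-- Finitely many incarnations have a piece that is alive forever. -/
theorem finite_live' {C : ℕ → ℕ → List Bool → Bool}
    (hCp : Primrec fun a : ℕ × ℕ × List Bool => C a.1 a.2.1 a.2.2) (p : ℕ) :
    ∃ N, ∀ s, ∀ e ∈ (st T (C p) s).1, Live T e.2 → e.1 < N :=
  finite_live hT (clopen_sub hTp hT hthin hCp p)

omit hTp hthin in
theorem live_unique {C : ℕ → List Bool → Bool} {s s' i : ℕ} {ρ ρ' : List Bool}
    (h : (i, ρ) ∈ (st T C s).1) (h' : (i, ρ') ∈ (st T C s').1) (hl : Live T ρ)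
    (hl' : Live T ρ') : ρ' = ρ := by
  have h1 := (inv_st (T := T) (C := C) hT (max s s')).uniq (i, ρ)
    ((hist_mono (le_max_left s s')).subset h) (i, ρ')
    ((hist_mono (le_max_right s s')).subset h') rfl
  rcases h1 with h1 | h1 | h1
  · exact h1
  · simp only at h1
    rw [hl] at h1
    exact absurd h1 (by simp)
  · simp only at h1
    rw [hl'] at h1
    exact absurd h1 (by simp)

omit hTp hT hthin in
/-- The first `k` values, as a binary string. -/
def word (v : List Bool → ℕ → Option ℕ) (ρ : List Bool) (k : ℕ) : List Bool :=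
  (List.range k).map fun n => !decide ((v ρ n).getD 0 = 0)

omit hTp hT hthin in
@[simp] theorem word_length (v : List Bool → ℕ → Option ℕ) (ρ : List Bool) (k : ℕ) :
    (word v ρ k).length = k := by simp [word]

omit hTp hT hthin in
theorem word_eq {v : List Bool → ℕ → Option ℕ} {ρ : List Bool} {k : ℕ} {x : ℕ → Bool}
    (h : ∀ n < k, v ρ n = some (x n).toNat) : word v ρ k = seg x k := by
  unfold word seg
  refine List.map_congr_left fun n hn => ?_
  rw [List.mem_range] at hn
  rw [h n hn]
  cases x n <;> simp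

omit hTp hT hthin in
theorem prim_word {v : List Bool → ℕ → Option ℕ} (hv : Primrec₂ v) :
    Primrec₂ (word v) := by
  refine Primrec.list_map (Primrec.list_range.comp Primrec.snd) ?_
  refine Primrec.not.comp (prim_beq ?_ (Primrec.const 0))
  exact Primrec.option_getD.comp (hv.comp (Primrec.fst.comp Primrec.fst) Primrec.snd)
    (Primrec.const 0)

/-- All values below `k` converge. -/
def conv (v : List Bool → ℕ → Option ℕ) (ρ : List Bool) (k : ℕ) : Bool :=
  (List.range k).all fun n => (v ρ n).isSome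

omit hTp hT hthin in
theorem conv_iff {v : List Bool → ℕ → Option ℕ} {ρ : List Bool} {k : ℕ} :
    conv v ρ k = true ↔ ∀ n < k, (v ρ n).isSome = true := by
  simp [conv]

omit hTp hT hthin in
theorem prim_conv {v : List Bool → ℕ → Option ℕ} (hv : Primrec₂ v) : Primrec₂ (conv v) := by
  refine prim_all (Primrec.list_range.comp Primrec.snd) ?_
  exact Primrec.option_isSome.comp (hv.comp (Primrec.fst.comp Primrec.fst) Primrec.snd)

omit hTp hT hthin in
theorem conv_mono {v : List Bool → ℕ → Option ℕ} (hv : IsFun v) {σ τ : List Bool} {k : ℕ}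
    (h : σ <+: τ) (hc : conv v σ k = true) : conv v τ k = true := by
  rw [conv_iff] at hc ⊢
  intro n hn
  obtain ⟨m, hm⟩ := Option.isSome_iff_exists.1 (hc n hn)
  rw [hv.mono h hm]
  rfl

omit hTp hT hthin in
theorem conv_val {v : List Bool → ℕ → Option ℕ} (hv : IsFun v) {y : ℕ → Bool} {f : ℕ → ℕ}
    (hf : Computes v y f) {ρ : List Bool} {k : ℕ} (hc : conv v ρ k = true) (hρ : Ini ρ y) :
    ∀ n < k, v ρ n = some (f n) := by
  intro n hn
  obtain ⟨m, hm⟩ := Option.isSome_iff_exists.1 (conv_iff.1 hc n hn)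
  rw [hm, hf.eq hv hρ hm]

omit hTp hT hthin in
theorem exists_conv {v : List Bool → ℕ → Option ℕ} (hv : IsFun v) {y : ℕ → Bool} {f : ℕ → ℕ}
    (hf : Computes v y f) (k : ℕ) : ∃ l, conv v (seg y l) k = true := by
  obtain ⟨l, hl⟩ := hf.conv hv k
  refine ⟨l, conv_iff.2 fun n hn => ?_⟩
  rw [hl n hn]
  rfl

/-- The points computed by one functional from the members of one thin class are covered by
finitely many cylinders of prescribed lengths. -/
theorem cover {v : List Bool → ℕ → Option ℕ} (hv : IsFun v) {m : ℕ → ℕ} (hm : Computable m) :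
    ∃ (N : ℕ) (σ : ℕ → List Bool), (∀ i, (σ i).length = m i) ∧ ∀ x y : ℕ → Bool,
      (∀ n, T (seg y n) = true) → Computes v y (fun n => (x n).toNat) →
        ∃ i < N, Ini (σ i) x := by
  classical
  obtain ⟨c, hc⟩ := Code.exists_code.1 (Partrec.nat_iff.1 hm)
  let C : ℕ → ℕ → List Bool → Bool := fun _ i ρ =>
    ((Code.evaln ρ.length c i).map fun k => conv v ρ k).getD false
  have hCiff : ∀ p i ρ, C p i ρ = true ↔ ∃ k, Code.evaln ρ.length c i = some k ∧
      conv v ρ k = true := by
    intro p i ρ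
    simp only [C]
    cases Code.evaln ρ.length c i <;> simp
  have heval : ∀ i k, k ∈ c.eval i → k = m i := by
    intro i k hk
    rw [hc] at hk
    simpa using hk
  have hCp : Primrec fun a : ℕ × ℕ × List Bool => C a.1 a.2.1 a.2.2 := by
    refine Primrec.option_getD.comp (Primrec.option_map ?_ ?_) (Primrec.const false)
    · exact Code.primrec_evaln.comp (Primrec.pair (Primrec.pair
        (Primrec.list_length.comp (Primrec.snd.comp Primrec.snd)) (Primrec.const c))
        (Primrec.fst.comp Primrec.snd))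
    · exact (prim_conv hv.prim).comp (Primrec.snd.comp (Primrec.snd.comp Primrec.fst)) Primrec.snd
  have hC : ∀ i, ∀ σ τ : List Bool, σ <+: τ → C 0 i σ = true → C 0 i τ = true := by
    intro i σ τ h h1
    rw [hCiff 0] at h1 ⊢
    obtain ⟨k, hk, hk'⟩ := h1
    exact ⟨k, Option.mem_def.1 (Code.evaln_mono h.length_le (Option.mem_def.2 hk)),
      conv_mono hv h hk'⟩
  let σ : ℕ → List Bool := fun i =>
    if h : ∃ ρ, Live T ρ ∧ ∃ s, (i, ρ) ∈ (st T (C 0) s).1 then word v h.choose (m i)
    else List.replicate (m i) false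
  obtain ⟨N, hN⟩ := finite_live' hTp hT hthin hCp 0
  refine ⟨N, σ, ?_, ?_⟩
  · intro i
    simp only [σ]
    split_ifs <;> simp
  · intro x y hy hx
    have hCy : ∀ i, ∃ l, C 0 i (seg y l) = true := by
      intro i
      obtain ⟨l, hl⟩ := exists_conv hv hx (m i)
      have h2 : m i ∈ c.eval i := by
        rw [hc]
        simp
      obtain ⟨k, hk⟩ := Code.evaln_complete.1 h2
      refine ⟨max l k, (hCiff 0 _ _).2 ⟨m i, ?_, conv_mono hv (seg_prefix y (le_max_left _ _)) hl⟩⟩
      rw [seg_length]
      exact Option.mem_def.1 (Code.evaln_mono (le_max_right l k) hk)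
    obtain ⟨s, e, he, hey⟩ := caught hTp hT hthin hCp 0 hC hy hCy
    refine ⟨e.1, hN s e he (live_of_path hy hey), ?_⟩
    have hex : ∃ ρ, Live T ρ ∧ ∃ s, (e.1, ρ) ∈ (st T (C 0) s).1 :=
      ⟨e.2, live_of_path hy hey, s, he⟩
    have h1 : σ e.1 = word v hex.choose (m e.1) := by
      simp only [σ]
      rw [dif_pos hex]
    obtain ⟨h2, s', h3⟩ := hex.choose_spec
    have h4 : hex.choose = e.2 := live_unique hT he h3 (live_of_path hy hey) h2
    have h5 := (inv_st (T := T) (C := C 0) hT s).cond e he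
    rw [hCiff 0] at h5
    obtain ⟨k, hk, hk'⟩ := h5
    have h6 : k = m e.1 := heval _ _ (Code.evaln_sound (Option.mem_def.2 hk))
    rw [h6] at hk'
    rw [h1, h4, word_eq (conv_val hv hx hk' hey)]
    exact ini_seg x _

end Pool.Agent.H77.Thin
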