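import Pool.Agent.H77.Thin.Basic

/-!
# The construction
-/

set_option autoImplicit false

namespace Pool.Agent.H77.Thin

/-- The state: the history of all events and the list of active incarnations, each with its
current piece. -/
abbrev St : Type := List (ℕ × List Bool) × List (ℕ × List Bool)

/-- The position of the first active incarnation whose piece is dead. -/
def pos (T : List Bool → Bool) (s : ℕ) (a : List (ℕ × List Bool)) : ℕ :=
  a.findIdx fun e => !alive T s e.2

/-- The number of the incarnation that requires attention. -/
def inc (T : List Bool → Bool) (s : ℕ) (S : St) : ℕ :=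
  ((S.2[pos T s S.2]?).map Prod.fst).getD S.1.length

/-- The conditions on a candidate. -/
def ok (T : List Bool → Bool) (C : ℕ → List Bool → Bool) (s : ℕ) (h : List (ℕ × List Bool))
    (i : ℕ) (τ : List Bool) : Bool :=
  C i τ && alive T s τ && (h.take i).all fun e => !cmp e.2 τ

/-- The first candidate. -/
def cand (T : List Bool → Bool) (C : ℕ → List Bool → Bool) (s : ℕ) (h : List (ℕ × List Bool))
    (i : ℕ) : Option (List Bool) :=
  ((List.range s).filterMap fun q =>
    (Encodable.decode q : Option (List Bool)).bind fun τ =>
      bif ok T C s h i τ then some τ else none).head?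

/-- One step. -/
def step (T : List Bool → Bool) (C : ℕ → List Bool → Bool) (s : ℕ) (S : St) : St :=
  (cand T C s S.1 (inc T s S)).elim S fun τ =>
    (S.1 ++ [(inc T s S, τ)], S.2.take (pos T s S.2) ++ [(inc T s S, τ)])

/-- The states. -/
def st (T : List Bool → Bool) (C : ℕ → List Bool → Bool) : ℕ → St :=
  fun n => Nat.rec ([], []) (fun s S => step T C s S) n

variable {T : List Bool → Bool} {C : ℕ → List Bool → Bool}

theorem st_zero : st T C 0 = ([], []) := rfl

theorem st_succ (s : ℕ) : st T C (s + 1) = step T C s (st T C s) := rfl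

theorem head_filterMap_range {β : Type} (f : ℕ → Option β) (s : ℕ) {q₀ : ℕ} {a : β}
    (h : q₀ < s) (hf : f q₀ = some a) :
    ∃ q, q ≤ q₀ ∧ ∃ b, f q = some b ∧ ((List.range s).filterMap f).head? = some b := by
  induction s with
  | zero => omega
  | succ s ih =>
    rw [List.range_succ, List.filterMap_append]
    rcases Nat.lt_succ_iff_lt_or_eq.1 h with h1 | h1
    · obtain ⟨q, hq, b, hb, hb'⟩ := ih h1
      refine ⟨q, hq, b, hb, ?_⟩
      rw [List.head?_append, hb']
      rfl
    · subst h1
      cases h2 : ((List.range q₀).filterMap f).head? with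
      | none =>
        refine ⟨q₀, le_rfl, a, hf, ?_⟩
        rw [List.head?_append, h2]
        simp [hf]
      | some b =>
        have h3 := List.mem_of_mem_head? (Option.mem_def.2 h2)
        rw [List.mem_filterMap] at h3
        obtain ⟨q, hq, h4⟩ := h3
        rw [List.mem_range] at hq
        refine ⟨q, hq.le, b, h4, ?_⟩
        rw [List.head?_append, h2]
        rfl

theorem cand_spec {s : ℕ} {h : List (ℕ × List Bool)} {i : ℕ} {τ : List Bool}
    (hc : cand T C s h i = some τ) : ok T C s h i τ = true := by
  unfold cand at hc
  have h1 := List.mem_of_mem_head? (Option.mem_def.2 hc)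
  rw [List.mem_filterMap] at h1
  obtain ⟨q, hq, h2⟩ := h1
  rw [Option.bind_eq_some_iff] at h2
  obtain ⟨τ', h3, h4⟩ := h2
  cases h5 : ok T C s h i τ' with
  | false => rw [h5] at h4; simp at h4
  | true =>
    rw [h5] at h4
    simp only [cond_true, Option.some.injEq] at h4
    subst h4
    exact h5

theorem cand_some {s : ℕ} {h : List (ℕ × List Bool)} {i : ℕ} {τ : List Bool} {q : ℕ}
    (hq : q < s) (hd : (Encodable.decode q : Option (List Bool)) = some τ)
    (hok : ok T C s h i τ = true) :
    ∃ q' τ', q' ≤ q ∧ (Encodable.decode q' : Option (List Bool)) = some τ' ∧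
      ok T C s h i τ' = true ∧ cand T C s h i = some τ' := by
  have h1 := head_filterMap_range (fun q => (Encodable.decode q : Option (List Bool)).bind fun τ =>
      bif ok T C s h i τ then some τ else none) s hq (a := τ) (by
        simp [hd, hok])
  obtain ⟨q', hq', τ', h2, h3⟩ := h1
  have h4 : cand T C s h i = some τ' := h3
  refine ⟨q', τ', hq', ?_, cand_spec h4, h4⟩
  rw [Option.bind_eq_some_iff] at h2
  obtain ⟨τ'', h5, h6⟩ := h2
  cases h7 : ok T C s h i τ'' with
  | false => rw [h7] at h6; simp at h6
  | true =>
    rw [h7] at h6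
    simp only [cond_true, Option.some.injEq] at h6
    rw [← h6, h5]

theorem ok_iff {s : ℕ} {h : List (ℕ × List Bool)} {i : ℕ} {τ : List Bool} :
    ok T C s h i τ = true ↔ C i τ = true ∧ alive T s τ = true ∧
      ∀ e ∈ h.take i, cmp e.2 τ = false := by
  simp only [ok, Bool.and_eq_true, List.all_eq_true, Bool.not_eq_true', and_assoc]

/-- A step either does nothing or adds an event. -/
theorem step_cases (s : ℕ) (S : St) :
    step T C s S = S ∨ ∃ τ, cand T C s S.1 (inc T s S) = some τ ∧
      step T C s S = (S.1 ++ [(inc T s S, τ)], S.2.take (pos T s S.2) ++ [(inc T s S, τ)]) := by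
  cases h : cand T C s S.1 (inc T s S) with
  | none => left; simp [step, h]
  | some τ => right; exact ⟨τ, rfl, by simp [step, h]⟩

theorem pos_le (s : ℕ) (a : List (ℕ × List Bool)) : pos T s a ≤ a.length := List.findIdx_le_length

theorem pos_cases (s : ℕ) (S : St) :
    (pos T s S.2 = S.2.length ∧ inc T s S = S.1.length) ∨
    (∃ e, S.2[pos T s S.2]? = some e ∧ inc T s S = e.1 ∧ alive T s e.2 = false) := by
  rcases lt_or_eq_of_le (pos_le (T := T) s S.2) with h | h
  · right
    refine ⟨S.2[pos T s S.2], List.getElem?_eq_getElem h, ?_, ?_⟩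
    · simp [inc, List.getElem?_eq_getElem h]
    · have := List.findIdx_getElem (xs := S.2) (p := fun e : ℕ × List Bool => !alive T s e.2) (w := h)
      simp only [Bool.not_eq_true'] at this
      exact this
  · left
    refine ⟨h, ?_⟩
    simp [inc, h]

theorem alive_of_lt_pos {s : ℕ} {a : List (ℕ × List Bool)} {k : ℕ} (hk : k < pos T s a)
    {e : ℕ × List Bool} (he : a[k]? = some e) : alive T s e.2 = true := by
  have h1 : k < a.length := by
    by_contra h
    rw [List.getElem?_eq_none (not_lt.1 h)] at he
    exact absurd he (by simp)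
  have := List.not_of_lt_findIdx (p := fun e : ℕ × List Bool => !alive T s e.2) (xs := a) hk
  rw [List.getElem?_eq_getElem h1, Option.some.injEq] at he
  rw [he] at this
  simpa using this

/-- The invariants of the construction. -/
structure Inv (T : List Bool → Bool) (C : ℕ → List Bool → Bool) (s : ℕ) (S : St) : Prop where
  mem : ∀ e ∈ S.2, e ∈ S.1
  lt : ∀ e ∈ S.1, e.1 < S.1.length
  sorted : (S.2.map Prod.fst).Pairwise (· < ·)
  cond : ∀ e ∈ S.1, C e.1 e.2 = true
  inco : ∀ e ∈ S.1, ∀ e' ∈ S.1.take e.1, cmp e'.2 e.2 = false
  act : ∀ e ∈ S.2, ∀ e' ∈ S.1, e'.1 = e.1 → e'.2 = e.2 ∨ alive T s e'.2 = false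
  uniq : ∀ e ∈ S.1, ∀ e' ∈ S.1, e'.1 = e.1 → e'.2 = e.2 ∨ alive T s e.2 = false ∨
    alive T s e'.2 = false

theorem Inv.zero : Inv T C 0 ([], []) :=
  ⟨by simp, by simp, by simp, by simp, by simp, by simp, by simp⟩

variable (hT : ∀ σ τ : List Bool, σ <+: τ → T τ = true → T σ = true)

include hT

theorem Inv.mono {s : ℕ} {S : St} (h : Inv T C s S) : Inv T C (s + 1) S := by
  have hd : ∀ ρ, alive T s ρ = false → alive T (s + 1) ρ = false := by
    intro ρ h1
    by_contra h2
    rw [Bool.not_eq_false] at h2
    rw [alive_anti hT (Nat.le_succ s) h2] at h1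
    exact absurd h1 (by simp)
  refine ⟨h.mem, h.lt, h.sorted, h.cond, h.inco, ?_, ?_⟩
  · intro e he e' he' hi
    exact (h.act e he e' he' hi).imp id (hd _)
  · intro e he e' he' hi
    exact (h.uniq e he e' he' hi).imp id (Or.imp (hd _) (hd _))

theorem Inv.step {s : ℕ} {S : St} (h : Inv T C s S) : Inv T C (s + 1) (step T C s S) := by
  rcases step_cases (T := T) (C := C) s S with h1 | ⟨τ, hτ, h1⟩
  · rw [h1]; exact h.mono hT
  rw [h1]
  obtain ⟨hC, hal, hinc⟩ := ok_iff.1 (cand_spec hτ)
  have h' := h.mono hT
  set i := inc T s S with hi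
  set p := pos T s S.2 with hp
  -- facts on the incarnation
  have hile : i ≤ S.1.length := by
    rcases pos_cases (T := T) s S with ⟨_, h2⟩ | ⟨e, h2, h3, _⟩
    · exact h2.le
    · rw [hi, h3]
      exact (h.lt e (h.mem e (List.mem_of_getElem? h2))).le
  have hsmall : ∀ e ∈ S.2.take p, e.1 < i := by
    intro e he
    rcases pos_cases (T := T) s S with ⟨h2, h3⟩ | ⟨e', h2, h3, _⟩
    · rw [hi, h3]
      exact h.lt e (h.mem e (List.mem_of_mem_take he))
    · rw [hi, h3]
      obtain ⟨k, hk, hke⟩ := List.getElem_of_mem he
      rw [List.length_take] at hk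
      have hk1 : k < p := by omega
      have hk2 : k < S.2.length := by omega
      rw [List.getElem_take] at hke
      have hp2 : p < S.2.length := by
        by_contra hcon
        rw [← hp, List.getElem?_eq_none (not_lt.1 hcon)] at h2
        exact absurd h2 (by simp)
      have h4 := List.pairwise_iff_getElem.1 h.sorted k p (by simpa using hk2) (by simpa using hp2)
        hk1
      simp only [List.getElem_map] at h4
      rw [hke] at h4
      rw [← hp, List.getElem?_eq_getElem hp2, Option.some.injEq] at h2
      rw [h2] at h4
      exact h4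
  have hdead : ∀ e' ∈ S.1, e'.1 = i → alive T s e'.2 = false := by
    intro e' he' hei
    rcases pos_cases (T := T) s S with ⟨h2, h3⟩ | ⟨e, h2, h3, h4⟩
    · have := h.lt e' he'
      rw [hei, hi, h3] at this
      omega
    · rcases h.act e (List.mem_of_getElem? h2) e' he' (by rw [hei, hi, h3]) with h5 | h5
      · rw [h5]; exact h4
      · exact h5
  have hdead' : ∀ e' ∈ S.1, e'.1 = i → alive T (s + 1) e'.2 = false := by
    intro e' he' hei
    by_contra h2
    rw [Bool.not_eq_false] at h2
    have := hdead e' he' hei
    rw [alive_anti hT (Nat.le_succ s) h2] at this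
    exact absurd this (by simp)
  refine ⟨?_, ?_, ?_, ?_, ?_, ?_, ?_⟩
  · intro e he
    rcases List.mem_append.1 he with h2 | h2
    · exact List.mem_append_left _ (h.mem e (List.mem_of_mem_take h2))
    · exact List.mem_append_right _ h2
  · intro e he
    simp only [List.length_append, List.length_cons, List.length_nil, zero_add]
    rcases List.mem_append.1 he with h2 | h2
    · have := h.lt e h2
      omega
    · simp only [List.mem_cons, List.not_mem_nil, or_false] at h2
      rw [h2]
      simp only
      omega
  · simp only [List.map_append, List.map_cons, List.map_nil]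
    rw [List.pairwise_append]
    refine ⟨?_, by simp, ?_⟩
    · rw [List.map_take]
      exact h.sorted.sublist (List.take_sublist _ _)
    · intro a ha b hb
      simp only [List.mem_cons, List.not_mem_nil, or_false] at hb
      obtain ⟨e, he, rfl⟩ := List.mem_map.1 ha
      rw [hb]
      exact hsmall e he
  · intro e he
    rcases List.mem_append.1 he with h2 | h2
    · exact h.cond e h2
    · simp only [List.mem_cons, List.not_mem_nil, or_false] at h2
      rw [h2]; exact hC
  · intro e he e' he'
    rcases List.mem_append.1 he with h2 | h2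
    · have h3 := h.lt e h2
      simp only at he'
      rw [List.take_append_of_le_length h3.le] at he'
      exact h.inco e h2 e' he'
    · simp only [List.mem_cons, List.not_mem_nil, or_false] at h2
      rw [h2] at he' ⊢
      simp only at he' ⊢
      rw [List.take_append_of_le_length hile] at he'
      exact hinc e' he'
  · intro e he e' he' hei
    rcases List.mem_append.1 he with h2 | h2
    · rcases List.mem_append.1 he' with h3 | h3
      · exact h'.act e (List.mem_of_mem_take h2) e' h3 hei
      · simp only [List.mem_cons, List.not_mem_nil, or_false] at h3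
        have := hsmall e h2
        rw [h3] at hei
        simp only at hei
        omega
    · simp only [List.mem_cons, List.not_mem_nil, or_false] at h2
      rw [h2] at hei ⊢
      simp only at hei ⊢
      rcases List.mem_append.1 he' with h3 | h3
      · exact Or.inr (hdead' e' h3 hei)
      · simp only [List.mem_cons, List.not_mem_nil, or_false] at h3
        exact Or.inl (by rw [h3])
  · intro e he e' he' hei
    rcases List.mem_append.1 he with h2 | h2
    · rcases List.mem_append.1 he' with h3 | h3
      · exact h'.uniq e h2 e' h3 hei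
      · simp only [List.mem_cons, List.not_mem_nil, or_false] at h3
        rw [h3] at hei
        exact Or.inr (Or.inl (hdead' e h2 hei.symm))
    · simp only [List.mem_cons, List.not_mem_nil, or_false] at h2
      rcases List.mem_append.1 he' with h3 | h3
      · rw [h2] at hei
        exact Or.inr (Or.inr (hdead' e' h3 hei))
      · simp only [List.mem_cons, List.not_mem_nil, or_false] at h3
        exact Or.inl (by rw [h3, h2])

theorem inv_st (s : ℕ) : Inv T C s (st T C s) := by
  induction s with
  | zero => exact Inv.zero
  | succ s ih => rw [st_succ]; exact ih.step hT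

omit hT in
theorem hist_mono_step (s : ℕ) (S : St) : S.1 <+: (step T C s S).1 := by
  rcases step_cases (T := T) (C := C) s S with h1 | ⟨τ, hτ, h1⟩
  · rw [h1]
  · rw [h1]; exact List.prefix_append _ _

omit hT in
theorem hist_mono {s t : ℕ} (h : s ≤ t) : (st T C s).1 <+: (st T C t).1 := by
  induction h with
  | refl => exact List.prefix_rfl
  | step _ ih => rw [st_succ]; exact ih.trans (hist_mono_step _ _)

end Pool.Agent.H77.Thin
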