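import Mathlib

/-!
# Members of thin `Π⁰₁` classes: definitions
-/

set_option autoImplicit false

namespace Pool.Agent.H77.Thin

open MeasureTheory

/-- The initial segment of length `n` of the point `x` of Cantor space. -/
def seg (x : ℕ → Bool) (n : ℕ) : List Bool := (List.range n).map x

/-- The characteristic function of `x`, as a partial function on `ℕ`. For points `x`, `y` of Cantor
space, `x ≤_T y` is Mathlib's `TuringReducible (chr x) (chr y)`. -/
def chr (x : ℕ → Bool) : ℕ →. ℕ := fun n => Part.some (x n).toNat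

/-- `P` is a `Π⁰₁` class: the set of infinite paths through a computable tree of binary strings. -/
def IsPi01 (P : Set (ℕ → Bool)) : Prop :=
  ∃ T : List Bool → Prop, ComputablePred T ∧ (∀ σ τ : List Bool, σ <+: τ → T τ → T σ) ∧
    P = {x | ∀ n, T (seg x n)}

/-- `P` is a thin `Π⁰₁` class: each `Π⁰₁` class `Q ⊆ P` is the intersection of `P` with a clopen
set. -/
def IsThin (P : Set (ℕ → Bool)) : Prop :=
  IsPi01 P ∧ ∀ Q : Set (ℕ → Bool), IsPi01 Q → Q ⊆ P → ∃ U : Set (ℕ → Bool), IsClopen U ∧ Q = P ∩ U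

/-- The uniform (fair coin) measure on Cantor space. -/
noncomputable def coin : Measure (ℕ → Bool) :=
  Measure.infinitePi fun _ => (PMF.uniformOfFintype Bool).toMeasure

/-- `S` is a uniformly `Σ⁰₂` sequence of sets of binary strings. -/
def IsSigma02 (S : ℕ → List Bool → Prop) : Prop :=
  ∃ R : (ℕ × List Bool) × ℕ × ℕ → Prop, ComputablePred R ∧
    ∀ c σ, S c σ ↔ ∃ a, ∀ b, R ((c, σ), a, b)

/-- `x` is `2`-random: it passes every Martin-Löf test relative to `0'`. Such a test is a sequence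
of open sets `V c = {z | some initial segment of z is in S c}` of measure at most `2⁻ᶜ` with `S`
uniformly `Σ⁰₂` (uniformly enumerable in `0'`). -/
def TwoRandom (x : ℕ → Bool) : Prop :=
  ∀ S : ℕ → List Bool → Prop, IsSigma02 S →
    (∀ c, coin {z | ∃ k, S c (seg z k)} ≤ 2⁻¹ ^ c) → ∃ c, ∀ k, ¬ S c (seg x k)

/-- `x` is weakly `2`-random: it lies in no `Π⁰₂` class of measure zero. -/
def WeaklyTwoRandom (x : ℕ → Bool) : Prop :=
  ∀ W : ℕ × List Bool → Prop, REPred W →
    coin {z | ∀ n, ∃ k, W (n, seg z k)} = 0 → ∃ n, ∀ k, ¬ W (n, seg x k)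

/-- `S` is a `Σ⁰₃` set of binary strings. -/
def IsSigma03 (S : List Bool → Prop) : Prop :=
  ∃ R : List Bool × ℕ × ℕ × ℕ → Prop, ComputablePred R ∧
    ∀ σ, S σ ↔ ∃ a, ∀ b, ∃ d, R (σ, a, b, d)

/-- `x` is weakly `3`-generic: it has an initial segment in each dense `Σ⁰₃` set of strings. -/
def WeaklyThreeGeneric (x : ℕ → Bool) : Prop :=
  ∀ S : List Bool → Prop, IsSigma03 S → (∀ σ, ∃ τ, σ <+: τ ∧ S τ) → ∃ k, S (seg x k)

/-- `f` is diagonally noncomputable relative to `0'`: it differs at `e` from the `e`-th partial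
`0'`-computable function, in the numbering `φ_e(n) = lim_s {e}(n, s)` of these functions. -/
def JumpDNC (f : ℕ → ℕ) : Prop :=
  ∀ (c : Nat.Partrec.Code) (v : ℕ),
    (∃ s₀, ∀ s, s₀ ≤ s → v ∈ c.eval (Nat.pair (Encodable.encode c) s)) →
      f (Encodable.encode c) ≠ v

/-- The points of Cantor space computable from a member of a thin `Π⁰₁` class. -/
def BelowThin : Set (ℕ → Bool) :=
  {x | ∃ P, IsThin P ∧ ∃ y ∈ P, TuringReducible (chr x) (chr y)}

end Pool.Agent.H77.Thin
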