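import Pool.Agent.H77.Thin.Constr

/-!
# The dynamics of the construction
-/

set_option autoImplicit false

namespace Pool.Agent.H77.Thin

variable {T : List Bool → Bool} {C : ℕ → List Bool → Bool}

/-- Forever alive. -/
def Live (T : List Bool → Bool) (ρ : List Bool) : Prop := ∀ s, alive T s ρ = true

theorem live_of_path {y : ℕ → Bool} (hy : ∀ n, T (seg y n) = true) {ρ : List Bool}
    (hρ : Ini ρ y) : Live T ρ := alive_of_path hy hρ

/-- The events do not catch `y`. -/
def Avoids (T : List Bool → Bool) (C : ℕ → List Bool → Bool) (y : ℕ → Bool) : Prop :=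
  ∀ s, ∀ e ∈ (st T C s).1, ¬ Ini e.2 y

theorem step_snd_of_event (s : ℕ) (S : St) {τ : List Bool}
    (h : cand T C s S.1 (inc T s S) = some τ) :
    step T C s S = (S.1 ++ [(inc T s S, τ)], S.2.take (pos T s S.2) ++ [(inc T s S, τ)]) := by
  simp [step, h]

theorem settled_pos {s : ℕ} {a L : List (ℕ × List Bool)} (hL : L <+: a)
    (hlive : ∀ e ∈ L, Live T e.2) : L.length ≤ pos T s a := by
  by_contra hcon
  rw [not_le] at hcon
  have h1 : pos T s a < a.length := lt_of_lt_of_le hcon hL.length_le
  have h2 := List.findIdx_getElem (xs := a) (p := fun e : ℕ × List Bool => !alive T s e.2)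
    (w := h1)
  simp only [Bool.not_eq_true'] at h2
  have h3 : L[pos T s a]? = some a[pos T s a] := by
    rw [List.getElem?_eq_getElem hcon, List.IsPrefix.getElem hL hcon]
  have h4 := hlive _ (List.mem_of_getElem? h3) s
  have h5 : alive T s a[pos T s a].2 = false := h2
  rw [h5] at h4
  exact absurd h4 (by simp)

/-- A prefix of settled elements of the active list is preserved. -/
theorem settled_step {s : ℕ} {S : St} {L : List (ℕ × List Bool)} (hL : L <+: S.2)
    (hlive : ∀ e ∈ L, Live T e.2) : L <+: (step T C s S).2 := by
  rcases step_cases (T := T) (C := C) s S with h | ⟨τ, hτ, h⟩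
  · rw [h]; exact hL
  · rw [h]
    refine List.IsPrefix.trans ?_ (List.prefix_append _ _)
    exact List.prefix_take_iff.2 ⟨hL, settled_pos hL hlive⟩

variable (hT : ∀ σ τ : List Bool, σ <+: τ → T τ = true → T σ = true)
  (hC : ∀ i, ∀ σ τ : List Bool, σ <+: τ → C i σ = true → C i τ = true)
  {y : ℕ → Bool} (hy : ∀ n, T (seg y n) = true) (hCy : ∀ i, ∃ l, C i (seg y l) = true)
  (hav : Avoids T C y)

include hC hy hCy hav

/-- For a fixed incarnation number there is a candidate that is always available. -/
theorem exists_candidate (s₀ i : ℕ) (hi : i ≤ (st T C s₀).1.length) :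
    ∃ q τ, (Encodable.decode q : Option (List Bool)) = some τ ∧
      ∀ s, s₀ ≤ s → ok T C s (st T C s).1 i τ = true := by
  obtain ⟨l₀, hl₀⟩ := hCy i
  have h1 : ∃ N, ∀ e ∈ (st T C s₀).1, e.2.length < N := by
    refine ⟨((st T C s₀).1.map fun e => e.2.length).sum + 1, fun e he => ?_⟩
    rw [Nat.lt_succ_iff]
    exact List.single_le_sum (by simp) _ (List.mem_map_of_mem he)
  obtain ⟨N, hN⟩ := h1
  refine ⟨Encodable.encode (seg y (max l₀ N)), seg y (max l₀ N), Encodable.encodek _, ?_⟩
  intro s hs
  rw [ok_iff]
  refine ⟨hC i _ _ (seg_prefix y (le_max_left _ _)) hl₀, alive_of_path hy (ini_seg _ _) s, ?_⟩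
  intro e he
  have h2 : (st T C s).1.take i = (st T C s₀).1.take i := by
    have h3 := hist_mono (T := T) (C := C) hs
    rw [List.prefix_iff_eq_take] at h3
    rw [h3, List.take_take, min_eq_left hi]
  rw [h2] at he
  have he' := List.mem_of_mem_take he
  rw [cmp_false_iff]
  constructor
  · intro h3
    exact hav s₀ e he' (ini_of_prefix h3)
  · intro h3
    have h4 := h3.length_le
    have h5 := hN e he'
    rw [seg_length] at h4
    have := le_max_right l₀ N
    omega

include hT

omit hC hy hCy hav in
theorem exists_stable (q₀ : ℕ) : ∃ s₂, ∀ q ≤ q₀, ∀ τ, (Encodable.decode q : Option (List Bool)) = some τ →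
    ∀ s, s₂ ≤ s → alive T s τ = true → Live T τ := by
  have h1 : ∀ q : ℕ, ∃ s, ∀ τ, (Encodable.decode q : Option (List Bool)) = some τ →
      alive T s τ = true → Live T τ := by
    intro q
    cases hq : (Encodable.decode q : Option (List Bool)) with
    | none => exact ⟨0, by simp⟩
    | some τ =>
      by_cases hl : Live T τ
      · refine ⟨0, ?_⟩
        intro τ' hτ' _
        rw [← Option.some.inj hτ']
        exact hl
      · rw [Live, not_forall] at hl
        obtain ⟨s, hs⟩ := hl
        refine ⟨s, ?_⟩
        intro τ' hτ' h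
        rw [← Option.some.inj hτ'] at h
        exact absurd h hs
  choose f hf using h1
  refine ⟨(Finset.range (q₀ + 1)).sup f, ?_⟩
  intro q hq τ hτ s hs ha
  refine hf q τ hτ (alive_anti hT (le_trans ?_ hs) ha)
  exact Finset.le_sup (f := f) (Finset.mem_range.2 (Nat.lt_succ_of_le hq))

/-- The first `n` active incarnations settle. -/
theorem settle (n : ℕ) : ∃ (s₀ : ℕ) (L : List (ℕ × List Bool)), L.length = n ∧
    (∀ e ∈ L, Live T e.2) ∧ ∀ s, s₀ ≤ s → L <+: (st T C s).2 := by
  induction n with
  | zero => exact ⟨0, [], rfl, by simp, fun s _ => List.nil_prefix⟩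
  | succ n ih =>
    obtain ⟨s₀, L, hLn, hLive, hL⟩ := ih
    have hpos : ∀ s, s₀ ≤ s → n ≤ pos T s (st T C s).2 := by
      intro s hs
      rw [← hLn]
      exact settled_pos (hL s hs) hLive
    -- there is a next active incarnation
    have hB1 : ∃ s₁, s₀ ≤ s₁ ∧ n < (st T C s₁).2.length := by
      by_contra hcon
      push Not at hcon
      have h1 : ∀ s, s₀ ≤ s → cand T C s (st T C s).1 (inc T s (st T C s)) = none := by
        intro s hs
        cases h2 : cand T C s (st T C s).1 (inc T s (st T C s)) with
        | none => rfl
        | some τ =>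
          have h3 := step_snd_of_event s (st T C s) h2
          have h4 := hcon (s + 1) (by omega)
          rw [st_succ, h3] at h4
          simp only [List.length_append, List.length_take, List.length_cons, List.length_nil] at h4
          have h5 := hpos s hs
          have h6 := pos_le (T := T) s (st T C s).2
          omega
      have h2 : ∀ s, s₀ ≤ s → st T C s = st T C s₀ := by
        intro s hs
        induction s, hs using Nat.le_induction with
        | base => rfl
        | succ s hs ih =>
          rw [st_succ]
          have := h1 s hs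
          rw [← ih]
          rcases step_cases (T := T) (C := C) s (st T C s) with h | ⟨τ, hτ, h⟩
          · exact h
          · rw [this] at hτ
            exact absurd hτ (by simp)
      have h3 : ∀ s, s₀ ≤ s → inc T s (st T C s) = (st T C s₀).1.length := by
        intro s hs
        rcases pos_cases (T := T) s (st T C s) with ⟨_, h4⟩ | ⟨e, h4, _, _⟩
        · rw [h4, h2 s hs]
        · have h5 := hpos s hs
          have h6 := hcon s hs
          have h7 : pos T s (st T C s).2 < (st T C s).2.length := by
            by_contra h8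
            rw [List.getElem?_eq_none (not_lt.1 h8)] at h4
            exact absurd h4 (by simp)
          omega
      obtain ⟨q, τ, hq, hok⟩ := exists_candidate hC hy hCy hav s₀ _ le_rfl
      have h4 := hok (max s₀ (q + 1)) (le_max_left _ _)
      obtain ⟨q', τ', _, _, _, h5⟩ := cand_some (lt_of_lt_of_le (Nat.lt_succ_self q)
        (le_max_right s₀ (q + 1))) hq h4
      have h6 := h1 (max s₀ (q + 1)) (le_max_left _ _)
      rw [h3 _ (le_max_left _ _), h5] at h6
      exact absurd h6 (by simp)
    obtain ⟨s₁, hs₁, hlen₁⟩ := hB1
    have hlen : ∀ s, s₁ ≤ s → n < (st T C s).2.length := by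
      intro s hs
      induction s, hs using Nat.le_induction with
      | base => exact hlen₁
      | succ s hs ih =>
        rw [st_succ]
        rcases step_cases (T := T) (C := C) s (st T C s) with h | ⟨τ, hτ, h⟩
        · rw [h]; exact ih
        · rw [h]
          simp only [List.length_append, List.length_take, List.length_cons, List.length_nil]
          have h5 := hpos s (by omega)
          have h6 := pos_le (T := T) s (st T C s).2
          omega
    -- its number
    obtain ⟨e₁, he₁⟩ : ∃ e, (st T C s₁).2[n]? = some e := ⟨_, List.getElem?_eq_getElem hlen₁⟩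
    have hnum : ∀ s, s₁ ≤ s → ∃ e, (st T C s).2[n]? = some e ∧ e.1 = e₁.1 := by
      intro s hs
      induction s, hs using Nat.le_induction with
      | base => exact ⟨e₁, he₁, rfl⟩
      | succ s hs ih =>
        obtain ⟨e, he, hee⟩ := ih
        rw [st_succ]
        rcases step_cases (T := T) (C := C) s (st T C s) with h | ⟨τ, hτ, h⟩
        · rw [h]; exact ⟨e, he, hee⟩
        · rw [h]
          have h5 := hpos s (by omega)
          have h6 := pos_le (T := T) s (st T C s).2
          rcases h5.lt_or_eq with h7 | h7
          · refine ⟨e, ?_, hee⟩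
            rw [List.getElem?_append_left (by rw [List.length_take]; omega),
              List.getElem?_take_of_lt h7]
            exact he
          · refine ⟨(inc T s (st T C s), τ), ?_, ?_⟩
            · rw [List.getElem?_append_right (by rw [List.length_take]; omega), List.length_take]
              rw [min_eq_left h6, h7]
              simp
            · rcases pos_cases (T := T) s (st T C s) with ⟨h8, _⟩ | ⟨e', h8, h9, _⟩
              · have := hlen s hs
                omega
              · rw [← h7, he, Option.some.injEq] at h8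
                simp only
                rw [h9, ← h8, hee]
    set i := e₁.1 with hi
    have hile : i ≤ (st T C s₁).1.length :=
      ((inv_st hT s₁).lt e₁ ((inv_st hT s₁).mem e₁ (List.mem_of_getElem? he₁))).le
    obtain ⟨q₀, τ₀, hq₀, hok₀⟩ := exists_candidate hC hy hCy hav s₁ i hile
    obtain ⟨s₂, hs₂⟩ := exists_stable hT q₀
    -- a stage at which the piece is alive forever
    have hkey : ∃ s₃, s₁ ≤ s₃ ∧ ∃ e, (st T C s₃).2[n]? = some e ∧ Live T e.2 := by
      obtain ⟨s₃, hs₃⟩ : ∃ s, s = max s₁ (max s₂ (q₀ + 1)) := ⟨_, rfl⟩
      obtain ⟨e, he, hee⟩ := hnum s₃ (by omega)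
      by_cases hl : Live T e.2
      · exact ⟨s₃, by omega, e, he, hl⟩
      · -- the piece dies at some stage
        rw [Live, not_forall] at hl
        obtain ⟨t, ht⟩ := hl
        rw [Bool.not_eq_true] at ht
        have hchange : ∃ s, s₃ ≤ s ∧ pos T s (st T C s).2 = n := by
          by_contra hcon
          push Not at hcon
          have h1 : ∀ s, s₃ ≤ s → (st T C s).2[n]? = some e := by
            intro s hs
            induction s, hs using Nat.le_induction with
            | base => exact he
            | succ s hs ih =>
              rw [st_succ]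
              rcases step_cases (T := T) (C := C) s (st T C s) with h | ⟨τ, hτ, h⟩
              · rw [h]; exact ih
              · rw [h]
                have h5 := hpos s (by omega)
                have h6 := pos_le (T := T) s (st T C s).2
                have h7 : n < pos T s (st T C s).2 :=
                  lt_of_le_of_ne h5 (Ne.symm (hcon s hs))
                rw [List.getElem?_append_left (by rw [List.length_take]; omega),
                  List.getElem?_take_of_lt h7]
                exact ih
          have h2 := h1 (max s₃ t) (le_max_left _ _)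
          have h3 := hcon (max s₃ t) (le_max_left _ _)
          have h4 := alive_of_lt_pos (T := T) (lt_of_le_of_ne (hpos (max s₃ t) (by omega))
            (Ne.symm h3)) h2
          rw [alive_anti hT (le_max_right s₃ t) h4] at ht
          exact absurd ht (by simp)
        obtain ⟨s, hs, hsp⟩ := hchange
        have hinc : inc T s (st T C s) = i := by
          obtain ⟨e', he', hee'⟩ := hnum s (by omega)
          simp only [inc, hsp, he', Option.map_some, Option.getD_some]
          exact hee'
        obtain ⟨q', τ', hq', hdec, hok', hcand⟩ := cand_some (T := T) (C := C) (s := s)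
          (h := (st T C s).1) (i := i) (q := q₀) (by omega) hq₀ (hok₀ s (by omega))
        have hlive' : Live T τ' := hs₂ q' hq' τ' hdec s (by omega) (ok_iff.1 hok').2.1
        refine ⟨s + 1, by omega, (i, τ'), ?_, hlive'⟩
        rw [← hinc] at hcand
        rw [st_succ, step_snd_of_event s _ hcand, hsp, hinc]
        have h6 := hlen s (by omega)
        simp only
        rw [List.getElem?_append_right (by rw [List.length_take]; omega), List.length_take]
        rw [min_eq_left h6.le]
        simp
    obtain ⟨s₃, hs₃, e, he, hle⟩ := hkey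
    refine ⟨s₃, L ++ [e], by simp [hLn], ?_, ?_⟩
    · intro e' he'
      rcases List.mem_append.1 he' with h | h
      · exact hLive e' h
      · simp only [List.mem_cons, List.not_mem_nil, or_false] at h
        rw [h]; exact hle
    · intro s hs
      induction s, hs using Nat.le_induction with
      | base =>
        have h1 := hL s₃ (by omega)
        obtain ⟨M, hM⟩ := h1
        rw [← hM] at he ⊢
        rw [List.getElem?_append_right (by omega), hLn, Nat.sub_self] at he
        cases M with
        | nil => simp at he
        | cons a M =>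
          simp only [List.length_cons, Nat.zero_lt_succ, List.getElem?_eq_getElem,
            List.getElem_cons_zero, Option.some.injEq] at he
          rw [he]
          exact ⟨M, by simp⟩
      | succ s hs ih =>
        rw [st_succ]
        refine settled_step ih ?_
        intro e' he'
        rcases List.mem_append.1 he' with h | h
        · exact hLive e' h
        · simp only [List.mem_cons, List.not_mem_nil, or_false] at h
          rw [h]; exact hle

/-- There are permanent incarnations with large numbers. -/
theorem exists_permanent (N : ℕ) : ∃ (s₀ : ℕ) (e : ℕ × List Bool), N ≤ e.1 ∧ Live T e.2 ∧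
    ∀ s, s₀ ≤ s → e ∈ (st T C s).1 := by
  obtain ⟨s₀, L, hLn, hLive, hL⟩ := settle hT hC hy hCy hav (N + 1)
  have hN : N < L.length := by omega
  refine ⟨s₀, L[N], ?_, hLive _ (List.getElem_mem hN), ?_⟩
  · have h1 := (inv_st (C := C) hT s₀).sorted
    have h2 : (L.map Prod.fst).Pairwise (· < ·) := by
      obtain ⟨M, hM⟩ := hL s₀ le_rfl
      rw [← hM, List.map_append, List.pairwise_append] at h1
      exact h1.1
    have h3 : ∀ k, ∀ hk : k < L.length, k ≤ L[k].1 := by
      intro k
      induction k with
      | zero => intro _; exact Nat.zero_le _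
      | succ k ih =>
        intro hk
        have h4 := ih (by omega)
        have h5 := List.pairwise_iff_getElem.1 h2 k (k + 1) (by simpa using (by omega : k < L.length))
          (by simpa using hk) (Nat.lt_succ_self k)
        simp only [List.getElem_map] at h5
        omega
    exact h3 N hN
  · intro s hs
    exact (inv_st hT s).mem _ ((hL s hs).subset (List.getElem_mem hN))

omit hC hy hCy hav hT in
/-- The complement of the cylinders of the events, inside the class. -/
theorem subclass_eq : {z : ℕ → Bool | ∀ n, T (seg z n) = true ∧ ∀ e ∈ (st T C n).1, ¬ e.2 <+: seg z n} =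
    {z | (∀ n, T (seg z n) = true) ∧ ∀ s, ∀ e ∈ (st T C s).1, ¬ Ini e.2 z} := by
  ext z
  simp only [Set.mem_ofPred_eq]
  constructor
  · intro h
    refine ⟨fun n => (h n).1, fun s e he hz => ?_⟩
    exact (h (max s e.2.length)).2 e ((hist_mono (le_max_left _ _)).subset he)
      (hz.pre (le_max_right _ _))
  · rintro ⟨h1, h2⟩ n
    exact ⟨h1 n, fun e he hz => h2 n e he (ini_of_prefix hz)⟩

omit hC hy hCy hav in
/-- In a thin class only finitely many incarnations have a piece that is alive forever. -/
theorem finite_live (hthin : ∃ U : Set (ℕ → Bool), IsClopen U ∧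
      {z : ℕ → Bool | ∀ n, T (seg z n) = true ∧ ∀ e ∈ (st T C n).1, ¬ e.2 <+: seg z n} =
        {z | ∀ n, T (seg z n) = true} ∩ U) :
    ∃ N, ∀ s, ∀ e ∈ (st T C s).1, Live T e.2 → e.1 < N := by
  obtain ⟨U, hU, hUe⟩ := hthin
  rw [subclass_eq] at hUe
  let P : Set (ℕ → Bool) := {z | ∀ n, T (seg z n) = true}
  let V : ℕ → Set (ℕ → Bool) := fun s => ⋃ e ∈ {e | e ∈ (st T C s).1}, {z | Ini e.2 z}
  have hVo : ∀ s, IsOpen (V s) := fun s => isOpen_biUnion fun e _ => isOpen_ini e.2
  have hVm : Monotone V := by
    intro s t hst z hz
    simp only [V, Set.mem_iUnion, Set.mem_ofPred_eq] at hz ⊢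
    obtain ⟨e, he, hz⟩ := hz
    exact ⟨e, (hist_mono hst).subset he, hz⟩
  have hK : IsCompact (P ∩ Uᶜ) :=
    ((isClosed_paths fun σ => T σ = true).inter hU.compl.isClosed).isCompact
  have hcov : P ∩ Uᶜ ⊆ ⋃ s, V s := by
    rintro z ⟨hz, hzU⟩
    by_contra h1
    apply hzU
    have h2 : z ∈ {z | (∀ n, T (seg z n) = true) ∧ ∀ s, ∀ e ∈ (st T C s).1, ¬ Ini e.2 z} := by
      refine ⟨hz, fun s e he hi => h1 ?_⟩
      simp only [V, Set.mem_iUnion, Set.mem_ofPred_eq]
      exact ⟨s, e, he, hi⟩
    rw [hUe] at h2
    exact h2.2
  obtain ⟨s₁, hs₁⟩ := hK.elim_directed_cover V hVo hcov (hVm.directed_le)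
  refine ⟨(st T C s₁).1.length, fun s₂ e he hel => ?_⟩
  by_contra heN
  rw [not_lt] at heN
  obtain ⟨z, hz, hze⟩ := exists_of_alive hT hel
  have hzU : z ∉ U := by
    intro h1
    have h2 : z ∈ {z : ℕ → Bool | ∀ n, T (seg z n) = true} ∩ U := ⟨hz, h1⟩
    rw [← hUe] at h2
    exact h2.2 s₂ e he hze
  have h3 := hs₁ ⟨hz, hzU⟩
  simp only [V, Set.mem_iUnion, Set.mem_ofPred_eq] at h3
  obtain ⟨e', he', hze'⟩ := h3
  have he2 : e ∈ (st T C (max s₁ s₂)).1 := (hist_mono (le_max_right _ _)).subset he
  have h4 := (inv_st (T := T) (C := C) hT (max s₁ s₂)).inco e he2 e' (by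
    have h5 := hist_mono (T := T) (C := C) (le_max_left s₁ s₂)
    have h6 : e' ∈ ((st T C (max s₁ s₂)).1).take (st T C s₁).1.length := by
      rw [List.prefix_iff_eq_take] at h5
      rw [← h5]; exact he'
    have h7 : ((st T C (max s₁ s₂)).1).take (st T C s₁).1.length <+:
        ((st T C (max s₁ s₂)).1).take e.1 := List.take_prefix_take_left heN
    exact h7.subset h6)
  rw [cmp_false_iff] at h4
  rcases ini_comparable hze' hze with h5 | h5
  · exact h4.1 h5
  · exact h4.2 h5

omit hav in
/-- **Key lemma**: in a thin class, some event catches `y`. -/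
theorem exists_event (hthin : ∃ U : Set (ℕ → Bool), IsClopen U ∧
      {z : ℕ → Bool | ∀ n, T (seg z n) = true ∧ ∀ e ∈ (st T C n).1, ¬ e.2 <+: seg z n} =
        {z | ∀ n, T (seg z n) = true} ∩ U) :
    ∃ s, ∃ e ∈ (st T C s).1, Ini e.2 y := by
  by_contra hcon
  have hav : Avoids T C y := by
    intro s e he hi
    exact hcon ⟨s, e, he, hi⟩
  obtain ⟨N, hN⟩ := finite_live hT hthin
  obtain ⟨s₂, e, heN, hel, he⟩ := exists_permanent hT hC hy hCy hav N
  have := hN s₂ e (he s₂ le_rfl) hel
  omega

end Pool.Agent.H77.Thin
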