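import Pool.Agent.H77.Thin.Rand

/-!
# Members of thin classes compute neither `2`-random nor weakly `3`-generic points
-/

set_option autoImplicit false

namespace Pool.Agent.H77.Thin

theorem member_props {P : Set (ℕ → Bool)} (hP : IsThin P) {y : ℕ → Bool} (hy : y ∈ P) :
    (∀ f : ℕ → ℕ, TuringReducible (fun n => Part.some (f n)) (chr y) → ¬ JumpDNC f) ∧
    (∀ x : ℕ → Bool, TuringReducible (chr x) (chr y) → ¬ TwoRandom x ∧ ¬ WeaklyThreeGeneric x) ∧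
    (∀ x : ℕ → Bool, TuringEquivalent (chr x) (chr y) → ¬ WeaklyTwoRandom x) := by
  obtain ⟨c, rfl⟩ := exists_tree hP.1
  refine ⟨fun f hf => ?_, fun x hx => ?_, fun x hx => ?_⟩
  · obtain ⟨cv, hv, hv'⟩ := exists_val hf
    exact not_jumpDNC (prim_tree c) (tree_closed c) hP hv hy hv'
  · obtain ⟨cv, hv, hv'⟩ := exists_val (f := fun n => (x n).toNat) hx
    exact ⟨not_twoRandom (prim_tree c) (tree_closed c) hP hv hy hv',
      not_weaklyThreeGeneric (prim_tree c) (tree_closed c) hP hv hy hv'⟩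
  · obtain ⟨cv, hv, hv'⟩ := exists_val (f := fun n => (x n).toNat) hx.1
    obtain ⟨cu, hu, hu'⟩ := exists_val (f := fun n => (y n).toNat) hx.2
    exact not_weaklyTwoRandom (prim_tree c) (tree_closed c) hP hu hv hy hv' hu'

theorem small : ∃ K : ℕ → Set (ℕ → Bool), BelowThin ⊆ ⋃ j, K j ∧ ∀ j, IsClosed (K j) ∧
    ∀ m : ℕ → ℕ, Computable m → ∃ (N : ℕ) (σ : ℕ → List Bool),
      (∀ i, (σ i).length = m i) ∧ ∀ x ∈ K j, ∃ i < N, seg x (m i) = σ i := by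
  obtain ⟨K, hK, hK'⟩ := closed_cover
  refine ⟨K, hK, fun j => ⟨(hK' j).1, fun m hm => ?_⟩⟩
  obtain ⟨N, σ, hσ, hσ'⟩ := (hK' j).2 m hm
  refine ⟨N, σ, hσ, fun x hx => ?_⟩
  obtain ⟨i, hi, hix⟩ := hσ' x hx
  refine ⟨i, hi, ?_⟩
  rw [← hσ i]
  exact hix

end Pool.Agent.H77.Thin
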