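import Pool.Agent.H77.Thin.Dyn

/-!
# The construction is primitive recursive
-/

set_option autoImplicit false

namespace Pool.Agent.H77.Thin

section Gen

variable {α β σ : Type} [Primcodable α] [Primcodable β] [Primcodable σ]

theorem prim_any {f : α → List β} {g : α → β → Bool} (hf : Primrec f) (hg : Primrec₂ g) :
    Primrec fun a => (f a).any (g a) := by
  have h1 : Primrec fun a => (f a).findIdx (g a) := Primrec.list_findIdx hf hg
  have h2 : PrimrecPred fun a => (f a).findIdx (g a) < (f a).length :=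
    Primrec.nat_lt.comp h1 (Primrec.list_length.comp hf)
  refine (PrimrecPred.decide h2).of_eq fun a => ?_
  rw [Bool.eq_iff_iff, decide_eq_true_eq, List.any_eq_true, List.findIdx_lt_length]

theorem prim_all {f : α → List β} {g : α → β → Bool} (hf : Primrec f) (hg : Primrec₂ g) :
    Primrec fun a => (f a).all (g a) := by
  have h1 : Primrec₂ fun a b => !g a b := Primrec.not.comp₂ hg
  refine (Primrec.not.comp (prim_any hf h1)).of_eq fun a => ?_
  rw [List.not_any_eq_all_not]
  simp

theorem prim_beq [DecidableEq β] {f g : α → β} (hf : Primrec f) (hg : Primrec g) :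
    Primrec fun a => decide (f a = g a) :=
  PrimrecPred.decide (Primrec.eq.comp hf hg)

end Gen

theorem prim_strs : Primrec strs := by
  have h1 : Primrec₂ fun (_ : ℕ) (p : ℕ × List (List Bool)) =>
      p.2.flatMap fun σ => [σ ++ [false], σ ++ [true]] := by
    refine Primrec.list_flatMap (Primrec.snd.comp Primrec.snd) ?_
    have h2 : ∀ b : Bool, Primrec₂ fun (_ : ℕ × ℕ × List (List Bool)) (σ : List Bool) =>
        σ ++ [b] := fun b => Primrec.list_concat.comp Primrec.snd (Primrec.const b)
    exact Primrec.list_cons.comp (h2 false) (Primrec.list_cons.comp (h2 true) (Primrec.const []))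
  exact Primrec.nat_rec' Primrec.id (Primrec.const [[]]) h1

theorem prim_take {α : Type} [Primcodable α] {f : α → ℕ} {β : Type} [Primcodable β]
    {g : α → List β} (hf : Primrec f) (hg : Primrec g) : Primrec fun a => (g a).take (f a) :=
  Primrec.list_take.comp hf hg

theorem prim_cmp : Primrec₂ cmp := by
  have h1 : Primrec fun a : List Bool × List Bool => a.2.take a.1.length :=
    prim_take (Primrec.list_length.comp Primrec.fst) Primrec.snd
  have h2 : Primrec fun a : List Bool × List Bool => a.1.take a.2.length :=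
    prim_take (Primrec.list_length.comp Primrec.snd) Primrec.fst
  exact Primrec.or.comp (prim_beq h1 Primrec.fst) (prim_beq h2 Primrec.snd)

variable {T : List Bool → Bool} (hTp : Primrec T)

include hTp

theorem prim_alive : Primrec₂ (alive T) := by
  refine prim_any (prim_strs.comp Primrec.fst) ?_
  exact Primrec.and.comp (prim_cmp.comp Primrec.snd (Primrec.snd.comp Primrec.fst))
    (hTp.comp Primrec.snd)

theorem prim_pos : Primrec₂ (pos T) := by
  refine Primrec.list_findIdx Primrec.snd ?_
  exact Primrec.not.comp ((prim_alive hTp).comp (Primrec.fst.comp Primrec.fst)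
    (Primrec.snd.comp Primrec.snd))

theorem prim_inc : Primrec₂ (inc T) := by
  have h1 : Primrec fun a : ℕ × St => a.2.2[pos T a.1 a.2.2]? :=
    Primrec.list_getElem?.comp (Primrec.snd.comp Primrec.snd)
      ((prim_pos hTp).comp Primrec.fst (Primrec.snd.comp Primrec.snd))
  exact Primrec.option_getD.comp (Primrec.option_map h1 (Primrec.fst.comp Primrec.snd))
    (Primrec.list_length.comp (Primrec.fst.comp Primrec.snd))

variable {C : ℕ → ℕ → List Bool → Bool}
  (hCp : Primrec fun a : ℕ × ℕ × List Bool => C a.1 a.2.1 a.2.2)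

include hCp

/-- the arguments are `(p, s, h, i)` and `τ` -/
theorem prim_ok : Primrec₂ fun (a : ℕ × ℕ × List (ℕ × List Bool) × ℕ) (τ : List Bool) =>
    ok T (C a.1) a.2.1 a.2.2.1 a.2.2.2 τ := by
  have hp : Primrec fun b : (ℕ × ℕ × List (ℕ × List Bool) × ℕ) × List Bool => b.1.1 :=
    Primrec.fst.comp Primrec.fst
  have hs : Primrec fun b : (ℕ × ℕ × List (ℕ × List Bool) × ℕ) × List Bool => b.1.2.1 :=
    Primrec.fst.comp (Primrec.snd.comp Primrec.fst)
  have hh : Primrec fun b : (ℕ × ℕ × List (ℕ × List Bool) × ℕ) × List Bool => b.1.2.2.1 :=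
    Primrec.fst.comp (Primrec.snd.comp (Primrec.snd.comp Primrec.fst))
  have hi : Primrec fun b : (ℕ × ℕ × List (ℕ × List Bool) × ℕ) × List Bool => b.1.2.2.2 :=
    Primrec.snd.comp (Primrec.snd.comp (Primrec.snd.comp Primrec.fst))
  refine Primrec.and.comp (Primrec.and.comp (hCp.comp (hp.pair (hi.pair Primrec.snd)))
    ((prim_alive hTp).comp hs Primrec.snd)) ?_
  refine prim_all (prim_take hi hh) ?_
  exact Primrec.not.comp (prim_cmp.comp (Primrec.snd.comp Primrec.snd)
    (Primrec.snd.comp Primrec.fst))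

theorem prim_cand : Primrec fun a : ℕ × ℕ × List (ℕ × List Bool) × ℕ =>
    cand T (C a.1) a.2.1 a.2.2.1 a.2.2.2 := by
  unfold cand
  refine Primrec.list_head?.comp (Primrec.listFilterMap
    (Primrec.list_range.comp (Primrec.fst.comp Primrec.snd)) ?_)
  refine Primrec.option_bind (Primrec.decode.comp Primrec.snd) ?_
  have h1 : Primrec fun b : ((ℕ × ℕ × List (ℕ × List Bool) × ℕ) × ℕ) × List Bool =>
      ok T (C b.1.1.1) b.1.1.2.1 b.1.1.2.2.1 b.1.1.2.2.2 b.2 :=
    (prim_ok hTp hCp).comp (Primrec.fst.comp Primrec.fst) Primrec.snd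
  exact Primrec.cond h1 (Primrec.option_some.comp Primrec.snd) (Primrec.const none)

theorem prim_step : Primrec₂ fun (p : ℕ) (a : ℕ × St) => step T (C p) a.1 a.2 := by
  unfold step
  have hS : Primrec fun b : ℕ × ℕ × St => b.2.2 := Primrec.snd.comp Primrec.snd
  have hs : Primrec fun b : ℕ × ℕ × St => b.2.1 := Primrec.fst.comp Primrec.snd
  have hinc : Primrec fun b : ℕ × ℕ × St => inc T b.2.1 b.2.2 := (prim_inc hTp).comp hs hS
  have hpos : Primrec fun b : ℕ × ℕ × St => pos T b.2.1 b.2.2.2 :=
    (prim_pos hTp).comp hs (Primrec.snd.comp hS)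
  have h1 : Primrec fun b : ℕ × ℕ × St =>
      cand T (C b.1) b.2.1 b.2.2.1 (inc T b.2.1 b.2.2) :=
    (prim_cand hTp hCp).comp (Primrec.fst.pair (hs.pair ((Primrec.fst.comp hS).pair hinc)))
  have h2 : Primrec₂ fun (b : ℕ × ℕ × St) (τ : List Bool) =>
      ((b.2.2.1 ++ [(inc T b.2.1 b.2.2, τ)],
        b.2.2.2.take (pos T b.2.1 b.2.2.2) ++ [(inc T b.2.1 b.2.2, τ)]) : St) := by
    refine Primrec.pair ?_ ?_
    · exact Primrec.list_concat.comp (Primrec.fst.comp (hS.comp Primrec.fst))
        ((hinc.comp Primrec.fst).pair Primrec.snd)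
    · exact Primrec.list_concat.comp (prim_take (hpos.comp Primrec.fst)
        (Primrec.snd.comp (hS.comp Primrec.fst))) ((hinc.comp Primrec.fst).pair Primrec.snd)
  refine (Primrec.option_casesOn h1 hS h2).of_eq fun b => ?_
  beta_reduce
  cases cand T (C b.1) b.2.1 b.2.2.1 (inc T b.2.1 b.2.2) <;> rfl

theorem prim_st : Primrec₂ fun p s => st T (C p) s := by
  have h1 : Primrec₂ fun (a : ℕ × ℕ) (b : ℕ × St) => step T (C a.1) b.1 b.2 :=
    (prim_step hTp hCp).comp (Primrec.fst.comp Primrec.fst) Primrec.snd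
  exact Primrec.nat_rec' Primrec.snd (Primrec.const ([], [])) h1

/-- The tree of the subclass that avoids all events. -/
theorem prim_subtree (p : ℕ) : Primrec fun σ : List Bool =>
    (T σ && ((st T (C p) σ.length).1.all fun e => !decide (σ.take e.2.length = e.2))) := by
  refine Primrec.and.comp hTp ?_
  refine prim_all (Primrec.fst.comp ((prim_st hTp hCp).comp (Primrec.const p)
    Primrec.list_length)) ?_
  refine Primrec.not.comp (prim_beq (prim_take (Primrec.list_length.comp
    (Primrec.snd.comp Primrec.snd)) Primrec.fst) (Primrec.snd.comp Primrec.snd))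

end Pool.Agent.H77.Thin
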