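import Pool.Agent.H77.Thin.Caught

/-!
# Randomness and diagonal noncomputability relative to the jump
-/

set_option autoImplicit false

namespace Pool.Agent.H77.Thin

open Encodable Nat.Partrec MeasureTheory

/-- The points computed by the functional with code `cv` from members of the thin class of the
tree with code `cT`, where `j` codes the pair. -/
def below (j : ℕ) : Set (ℕ → Bool) :=
  {x | ∃ cT cv : Code, encode (cT, cv) = j ∧ IsThin {x | ∀ n, tree cT (seg x n) = true} ∧
    IsFun (val cv) ∧ ∃ y : ℕ → Bool, (∀ n, tree cT (seg y n) = true) ∧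
      Computes (val cv) y (fun n => (x n).toNat)}

theorem isClosed_fin (N : ℕ) (σ : ℕ → List Bool) :
    IsClosed {x : ℕ → Bool | ∃ i < N, Ini (σ i) x} := by
  have h1 : {x : ℕ → Bool | ∃ i < N, Ini (σ i) x} =
      ⋃ i ∈ Finset.range N, {x | Ini (σ i) x} := by
    ext x
    simp
  rw [h1]
  exact isClosed_biUnion_finset fun i _ => isClosed_ini (σ i)

/-- Covers by closed sets each of which is covered by finitely many cylinders of prescribed
lengths. -/
theorem closed_cover : ∃ K : ℕ → Set (ℕ → Bool), BelowThin ⊆ ⋃ j, K j ∧ ∀ j, IsClosed (K j) ∧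
    ∀ m : ℕ → ℕ, Computable m → ∃ (N : ℕ) (σ : ℕ → List Bool),
      (∀ i, (σ i).length = m i) ∧ ∀ x ∈ K j, ∃ i < N, Ini (σ i) x := by
  refine ⟨fun j => closure (below j), ?_, fun j => ⟨isClosed_closure, fun m hm => ?_⟩⟩
  · rintro x ⟨P, hP, y, hy, hxy⟩
    obtain ⟨cT, rfl⟩ := exists_tree hP.1
    obtain ⟨cv, hfun, hcomp⟩ := exists_val (f := fun n => (x n).toNat) hxy
    rw [Set.mem_iUnion]
    exact ⟨encode (cT, cv), subset_closure ⟨cT, cv, rfl, hP, hfun, y, hy, hcomp⟩⟩
  · have h1 : ∃ (N : ℕ) (σ : ℕ → List Bool),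
        (∀ i, (σ i).length = m i) ∧ ∀ x ∈ below j, ∃ i < N, Ini (σ i) x := by
      by_cases h : ∃ cT cv : Code, encode (cT, cv) = j ∧
          IsThin {x | ∀ n, tree cT (seg x n) = true} ∧ IsFun (val cv)
      · obtain ⟨cT, cv, hj, hthin, hfun⟩ := h
        obtain ⟨N, σ, hσ, hσ'⟩ := cover (prim_tree cT) (tree_closed cT) hthin hfun hm
        refine ⟨N, σ, hσ, ?_⟩
        rintro x ⟨cT', cv', hj', _, _, y, hy, hx⟩
        have h2 : (cT', cv') = (cT, cv) := encode_injective (hj'.trans hj.symm)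
        obtain ⟨rfl, rfl⟩ := Prod.mk.inj h2
        exact hσ' x y hy hx
      · refine ⟨0, fun i => List.replicate (m i) false, by simp, ?_⟩
        rintro x ⟨cT', cv', hj', h2, h3, _⟩
        exact absurd ⟨cT', cv', hj', h2, h3⟩ h
    obtain ⟨N, σ, hσ, h2⟩ := h1
    exact ⟨N, σ, hσ, fun x hx => closure_minimal (t := {x | ∃ i < N, Ini (σ i) x}) h2
      (isClosed_fin N σ) hx⟩

theorem null_of_cover {K : Set (ℕ → Bool)} (hK : ∀ m : ℕ → ℕ, Computable m →
    ∃ (N : ℕ) (σ : ℕ → List Bool), (∀ i, (σ i).length = m i) ∧ ∀ x ∈ K, ∃ i < N, Ini (σ i) x) :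
    coin K = 0 := by
  refine null_of_le fun c => ?_
  have hm : Computable fun k : ℕ => c + k + 1 :=
    (Primrec.succ.comp (Primrec.nat_add.comp (Primrec.const c) Primrec.id)).to_comp
  obtain ⟨N, σ, hσ, hσ'⟩ := hK _ hm
  refine coin_le (fun k => {σ k}) (fun _ => Set.subsingleton_singleton) c ?_ ?_
  · intro i τ hτ
    rw [Set.mem_singleton_iff.1 hτ]
    exact hσ i
  · intro x hx
    obtain ⟨k, _, hk⟩ := hσ' x hx
    exact ⟨k, σ k, rfl, hk⟩

theorem null_all : coin BelowThin = 0 := by
  obtain ⟨K, hK, hK'⟩ := closed_cover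
  refine measure_mono_null hK (measure_iUnion_null fun j => null_of_cover (hK' j).2)

theorem exists_ini_of_isOpen {U : Set (ℕ → Bool)} (hU : IsOpen U) {x : ℕ → Bool} (hx : x ∈ U) :
    ∃ σ, Ini σ x ∧ {z | Ini σ z} ⊆ U := by
  by_contra hcon
  push Not at hcon
  have h1 : ∀ n, ∃ z, Ini (seg x n) z ∧ z ∉ U := by
    intro n
    have h2 := hcon (seg x n) (ini_seg x n)
    rw [Set.not_subset] at h2
    obtain ⟨z, hz, hz'⟩ := h2
    exact ⟨z, hz, hz'⟩
  choose z hz hzU using h1
  have h2 : Filter.Tendsto z Filter.atTop (nhds x) := by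
    rw [tendsto_pi_nhds]
    intro k
    refine tendsto_const_nhds.congr' ?_
    filter_upwards [Filter.eventually_gt_atTop k] with n hn
    have h3 : (seg (z n) n)[k]? = (seg x n)[k]? := by
      have h4 := hz n
      unfold Ini at h4
      rw [seg_length] at h4
      rw [h4]
    rw [seg_getElem? _ hn, seg_getElem? _ hn] at h3
    exact (Option.some.inj h3).symm
  obtain ⟨n, hn⟩ := (h2.eventually (hU.mem_nhds hx)).exists
  exact hzU n hn

theorem meagre_all : IsMeagre BelowThin := by
  obtain ⟨K, hK, hK'⟩ := closed_cover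
  refine IsMeagre.mono hK ?_
  refine isMeagre_iUnion fun j => IsNowhereDense.isMeagre ?_
  rw [(hK' j).1.isNowhereDense_iff]
  by_contra hcon
  obtain ⟨x, hx⟩ := Set.nonempty_iff_ne_empty.2 hcon
  obtain ⟨σ, hσ, hσ'⟩ := exists_ini_of_isOpen isOpen_interior hx
  have h1 : coin {z | Ini σ z} = 0 :=
    measure_mono_null (hσ'.trans interior_subset) (null_of_cover (hK' j).2)
  rw [coin_ini] at h1
  simp at h1

section TwoRandom

variable {T : List Bool → Bool} (hTp : Primrec T)
  (hT : ∀ σ τ : List Bool, σ <+: τ → T τ = true → T σ = true)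
  (hthin : IsThin {x | ∀ n, T (seg x n) = true})

/-- The conditions for the test. -/
def ctest (v : List Bool → ℕ → Option ℕ) (c i : ℕ) (ρ : List Bool) : Bool := conv v ρ (c + i + 1)

theorem prim_ctest {v : List Bool → ℕ → Option ℕ} (hv : Primrec₂ v) :
    Primrec fun a : ℕ × ℕ × List Bool => ctest v a.1 a.2.1 a.2.2 := by
  refine (prim_conv hv).comp (Primrec.snd.comp Primrec.snd) ?_
  exact Primrec.succ.comp (Primrec.nat_add.comp Primrec.fst (Primrec.fst.comp Primrec.snd))

/-- The matrix of the test. -/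
def mat (T : List Bool → Bool) (v : List Bool → ℕ → Option ℕ)
    (a : (ℕ × List Bool) × ℕ × ℕ) : Bool :=
  ((decode (α := ℕ × ℕ × List Bool) a.2.1).map fun t =>
    ((st T (ctest v a.1.1) t.1).1.any fun e => decide (e = t.2)) && alive T a.2.2 t.2.2 &&
      decide (a.1.2 = word v t.2.2 (a.1.1 + t.2.1 + 1))).getD false

theorem mat_iff {v : List Bool → ℕ → Option ℕ} {c a b : ℕ} {σ : List Bool} :
    mat T v ((c, σ), a, b) = true ↔ ∃ s i ρ, decode (α := ℕ × ℕ × List Bool) a = some (s, i, ρ) ∧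
      (i, ρ) ∈ (st T (ctest v c) s).1 ∧ alive T b ρ = true ∧ σ = word v ρ (c + i + 1) := by
  unfold mat
  cases decode (α := ℕ × ℕ × List Bool) a with
  | none => simp
  | some t =>
    obtain ⟨s, i, ρ⟩ := t
    simp only [Option.map_some, Option.getD_some, Bool.and_eq_true, List.any_eq_true,
      decide_eq_true_eq, Option.some.injEq]
    constructor
    · rintro ⟨⟨⟨e, he, rfl⟩, h2⟩, h3⟩
      exact ⟨s, i, ρ, rfl, he, h2, h3⟩
    · rintro ⟨s', i', ρ', h1, h2, h3, h4⟩
      obtain ⟨rfl, h5⟩ := Prod.mk.inj h1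
      obtain ⟨rfl, rfl⟩ := Prod.mk.inj h5
      exact ⟨⟨⟨_, h2, rfl⟩, h3⟩, h4⟩

include hTp in
theorem prim_mat {v : List Bool → ℕ → Option ℕ} (hv : Primrec₂ v) : Primrec (mat T v) := by
  unfold mat
  refine Primrec.option_getD.comp (Primrec.option_map ?_ ?_) (Primrec.const false)
  · exact Primrec.decode.comp (Primrec.fst.comp Primrec.snd)
  · have hc : Primrec fun b : ((ℕ × List Bool) × ℕ × ℕ) × ℕ × ℕ × List Bool => b.1.1.1 :=
      Primrec.fst.comp (Primrec.fst.comp Primrec.fst)
    have hs : Primrec fun b : ((ℕ × List Bool) × ℕ × ℕ) × ℕ × ℕ × List Bool => b.2.1 :=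
      Primrec.fst.comp Primrec.snd
    have hρ : Primrec fun b : ((ℕ × List Bool) × ℕ × ℕ) × ℕ × ℕ × List Bool => b.2.2.2 :=
      Primrec.snd.comp (Primrec.snd.comp Primrec.snd)
    have hi : Primrec fun b : ((ℕ × List Bool) × ℕ × ℕ) × ℕ × ℕ × List Bool => b.2.2.1 :=
      Primrec.fst.comp (Primrec.snd.comp Primrec.snd)
    refine Primrec.and.comp (Primrec.and.comp ?_ ?_) ?_
    · refine prim_any (Primrec.fst.comp ((prim_st hTp (prim_ctest hv)).comp hc hs)) ?_
      exact prim_beq Primrec.snd (Primrec.snd.comp (Primrec.snd.comp Primrec.fst))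
    · exact (prim_alive hTp).comp (Primrec.snd.comp (Primrec.snd.comp Primrec.fst)) hρ
    · refine prim_beq (Primrec.snd.comp (Primrec.fst.comp Primrec.fst)) ?_
      exact (prim_word hv).comp hρ (Primrec.succ.comp (Primrec.nat_add.comp hc hi))

include hTp hT hthin

theorem not_twoRandom {v : List Bool → ℕ → Option ℕ} (hv : IsFun v) {x y : ℕ → Bool}
    (hy : ∀ n, T (seg y n) = true) (hx : Computes v y (fun n => (x n).toNat)) :
    ¬ TwoRandom x := by
  intro hr
  let S : ℕ → List Bool → Prop := fun c σ => ∃ a, ∀ b, mat T v ((c, σ), a, b) = true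
  have hS : IsSigma02 S := by
    refine ⟨fun a => mat T v a = true, ComputablePred.computable_iff.2
      ⟨_, (prim_mat hTp hv.prim).to_comp, rfl⟩, fun c σ => Iff.rfl⟩
  have hSiff : ∀ c σ, S c σ → ∃ s i ρ, (i, ρ) ∈ (st T (ctest v c) s).1 ∧ Live T ρ ∧
      σ = word v ρ (c + i + 1) := by
    rintro c σ ⟨a, ha⟩
    obtain ⟨s, i, ρ, h1, h2, h3, h4⟩ := mat_iff.1 (ha 0)
    refine ⟨s, i, ρ, h2, ?_, h4⟩
    intro b
    obtain ⟨s', i', ρ', h1', h2', h3', h4'⟩ := mat_iff.1 (ha b)
    rw [h1, Option.some.injEq] at h1'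
    obtain ⟨rfl, h5⟩ := Prod.mk.inj h1'
    obtain ⟨rfl, rfl⟩ := Prod.mk.inj h5
    exact h3'
  have hmeas : ∀ c, coin {z | ∃ k, S c (seg z k)} ≤ 2⁻¹ ^ c := by
    intro c
    refine coin_le (fun i => {σ | ∃ s ρ, (i, ρ) ∈ (st T (ctest v c) s).1 ∧ Live T ρ ∧
      σ = word v ρ (c + i + 1)}) ?_ c ?_ ?_
    · rintro i σ ⟨s, ρ, h1, h2, rfl⟩ τ ⟨s', ρ', h1', h2', rfl⟩
      rw [live_unique hT h1' h1 h2' h2]
    · rintro i σ ⟨s, ρ, h1, h2, rfl⟩
      simp
    · rintro z ⟨k, hk⟩
      obtain ⟨s, i, ρ, h1, h2, h3⟩ := hSiff c _ hk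
      refine ⟨i, seg z k, ⟨s, ρ, h1, h2, h3⟩, ini_seg z k⟩
  obtain ⟨c, hc⟩ := hr S hS hmeas
  obtain ⟨s, e, he, hey⟩ := caught hTp hT hthin (prim_ctest hv.prim) c
    (fun i σ τ h h1 => conv_mono hv h h1) hy (fun i => exists_conv hv hx _)
  have h1 := (inv_st (T := T) (C := ctest v c) hT s).cond e he
  refine hc (c + e.1 + 1) ⟨encode (s, e.1, e.2), fun b => mat_iff.2 ⟨s, e.1, e.2, encodek _, he,
    alive_of_path hy hey b, ?_⟩⟩
  rw [word_eq (conv_val hv hx h1 hey)]

omit hTp hT hthin in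
/-- The matrix of the set of strings that avoid a level of the test. -/
def gmat (T : List Bool → Bool) (v : List Bool → ℕ → Option ℕ)
    (a : List Bool × ℕ × ℕ × ℕ) : Bool :=
  ((decode (α := ℕ × ℕ × List Bool) a.2.2.1).map fun t =>
    !((st T (ctest v a.2.1) t.1).1.any fun e => decide (e = t.2)) || !alive T a.2.2.2 t.2.2 ||
      !cmp (word v t.2.2 (a.2.1 + t.2.1 + 1)) a.1).getD true

omit hTp hT hthin in
theorem gmat_iff {v : List Bool → ℕ → Option ℕ} {c b d : ℕ} {σ : List Bool} :
    gmat T v (σ, c, b, d) = true ↔ ∀ s i ρ, decode (α := ℕ × ℕ × List Bool) b = some (s, i, ρ) →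
      (i, ρ) ∈ (st T (ctest v c) s).1 → alive T d ρ = true →
        cmp (word v ρ (c + i + 1)) σ = false := by
  unfold gmat
  cases decode (α := ℕ × ℕ × List Bool) b with
  | none => simp
  | some t =>
    obtain ⟨s, i, ρ⟩ := t
    simp only [Option.map_some, Option.getD_some, Bool.or_eq_true, Bool.not_eq_true',
      List.any_eq_false, decide_eq_true_eq, Option.some.injEq]
    constructor
    · intro h s' i' ρ' h1 h2 h3
      obtain ⟨rfl, h5⟩ := Prod.mk.inj h1
      obtain ⟨rfl, rfl⟩ := Prod.mk.inj h5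
      rcases h with (h | h) | h
      · exact absurd rfl (h _ h2)
      · rw [h3] at h
        exact absurd h (by simp)
      · exact h
    · intro h
      by_cases h2 : (i, ρ) ∈ (st T (ctest v c) s).1
      · by_cases h3 : alive T d ρ = true
        · exact Or.inr (h s i ρ rfl h2 h3)
        · exact Or.inl (Or.inr (by simpa using h3))
      · refine Or.inl (Or.inl fun e he hee => h2 ?_)
        rw [← hee]
        exact he

omit hT hthin in
theorem prim_gmat {v : List Bool → ℕ → Option ℕ} (hv : Primrec₂ v) : Primrec (gmat T v) := by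
  unfold gmat
  have hdec : Primrec fun a : List Bool × ℕ × ℕ × ℕ =>
      (decode (α := ℕ × ℕ × List Bool) a.2.2.1) :=
    Primrec.decode.comp (Primrec.fst.comp (Primrec.snd.comp Primrec.snd))
  have hc : Primrec fun b : (List Bool × ℕ × ℕ × ℕ) × ℕ × ℕ × List Bool => b.1.2.1 :=
    Primrec.fst.comp (Primrec.snd.comp Primrec.fst)
  have hs : Primrec fun b : (List Bool × ℕ × ℕ × ℕ) × ℕ × ℕ × List Bool => b.2.1 :=
    Primrec.fst.comp Primrec.snd
  have hρ : Primrec fun b : (List Bool × ℕ × ℕ × ℕ) × ℕ × ℕ × List Bool => b.2.2.2 :=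
    Primrec.snd.comp (Primrec.snd.comp Primrec.snd)
  have hi : Primrec fun b : (List Bool × ℕ × ℕ × ℕ) × ℕ × ℕ × List Bool => b.2.2.1 :=
    Primrec.fst.comp (Primrec.snd.comp Primrec.snd)
  have hd : Primrec fun b : (List Bool × ℕ × ℕ × ℕ) × ℕ × ℕ × List Bool => b.1.2.2.2 :=
    Primrec.snd.comp (Primrec.snd.comp (Primrec.snd.comp Primrec.fst))
  have h0 : Primrec fun b : (List Bool × ℕ × ℕ × ℕ) × ℕ × ℕ × List Bool =>
      (st T (ctest v b.1.2.1) b.2.1).1 :=
    Primrec.fst.comp ((prim_st hTp (prim_ctest hv)).comp hc hs)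
  have h1 : Primrec fun b : (List Bool × ℕ × ℕ × ℕ) × ℕ × ℕ × List Bool =>
      !((st T (ctest v b.1.2.1) b.2.1).1.any fun e => decide (e = b.2.2)) :=
    Primrec.not.comp (prim_any h0
      (prim_beq Primrec.snd (Primrec.snd.comp (Primrec.snd.comp Primrec.fst))))
  have h2 : Primrec fun b : (List Bool × ℕ × ℕ × ℕ) × ℕ × ℕ × List Bool =>
      !alive T b.1.2.2.2 b.2.2.2 := Primrec.not.comp ((prim_alive hTp).comp hd hρ)
  have h3 : Primrec fun b : (List Bool × ℕ × ℕ × ℕ) × ℕ × ℕ × List Bool =>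
      !cmp (word v b.2.2.2 (b.1.2.1 + b.2.2.1 + 1)) b.1.1 :=
    Primrec.not.comp (prim_cmp.comp ((prim_word hv).comp hρ
      (Primrec.succ.comp (Primrec.nat_add.comp hc hi))) (Primrec.fst.comp Primrec.fst))
  exact Primrec.option_getD.comp (Primrec.option_map hdec
    (Primrec.or.comp (Primrec.or.comp h1 h2) h3)) (Primrec.const true)

theorem not_weaklyThreeGeneric {v : List Bool → ℕ → Option ℕ} (hv : IsFun v) {x y : ℕ → Bool}
    (hy : ∀ n, T (seg y n) = true) (hx : Computes v y (fun n => (x n).toNat)) :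
    ¬ WeaklyThreeGeneric x := by
  intro hr
  let S : List Bool → Prop := fun σ => ∃ c, ∀ b, ∃ d, gmat T v (σ, c, b, d) = true
  have hS : IsSigma03 S := by
    refine ⟨fun a => gmat T v a = true, ComputablePred.computable_iff.2
      ⟨_, (prim_gmat hTp hv.prim).to_comp, rfl⟩, fun σ => Iff.rfl⟩
  -- the strings in `S` avoid the pieces of some level
  have hSiff : ∀ σ, S σ ↔ ∃ c, ∀ s i ρ, (i, ρ) ∈ (st T (ctest v c) s).1 → Live T ρ →
      cmp (word v ρ (c + i + 1)) σ = false := by
    intro σ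
    refine exists_congr fun c => ?_
    constructor
    · intro h s i ρ h1 h2
      obtain ⟨d, hd⟩ := h (encode (s, i, ρ))
      exact gmat_iff.1 hd s i ρ (encodek _) h1 (h2 d)
    · intro h b
      cases hb : decode (α := ℕ × ℕ × List Bool) b with
      | none =>
        refine ⟨0, gmat_iff.2 ?_⟩
        intro s i ρ h1
        rw [hb] at h1
        exact absurd h1 (by simp)
      | some t =>
        obtain ⟨s, i, ρ⟩ := t
        by_cases hl : Live T ρ
        · refine ⟨0, gmat_iff.2 ?_⟩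
          intro s' i' ρ' h1 h2 _
          rw [hb, Option.some.injEq] at h1
          obtain ⟨rfl, h5⟩ := Prod.mk.inj h1
          obtain ⟨rfl, rfl⟩ := Prod.mk.inj h5
          exact h _ _ _ h2 hl
        · rw [Live, not_forall] at hl
          obtain ⟨d, hd⟩ := hl
          refine ⟨d, gmat_iff.2 ?_⟩
          intro s' i' ρ' h1 h2 h3
          rw [hb, Option.some.injEq] at h1
          obtain ⟨rfl, h5⟩ := Prod.mk.inj h1
          obtain ⟨rfl, rfl⟩ := Prod.mk.inj h5
          exact absurd h3 hd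
  have hdense : ∀ σ, ∃ τ, σ <+: τ ∧ S τ := by
    intro σ
    obtain ⟨c, hc⟩ : ∃ c, c = σ.length + 1 := ⟨_, rfl⟩
    obtain ⟨N, hN⟩ := finite_live' hTp hT hthin (prim_ctest hv.prim) c
    let V : Set (ℕ → Bool) := {z | ∃ s i ρ, (i, ρ) ∈ (st T (ctest v c) s).1 ∧ Live T ρ ∧
      Ini (word v ρ (c + i + 1)) z}
    have h1 : coin V ≤ 2⁻¹ ^ c := by
      refine coin_le (fun i => {σ | ∃ s ρ, (i, ρ) ∈ (st T (ctest v c) s).1 ∧ Live T ρ ∧
        σ = word v ρ (c + i + 1)}) ?_ c ?_ ?_
      · rintro i σ ⟨s, ρ, h1, h2, rfl⟩ τ ⟨s', ρ', h1', h2', rfl⟩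
        rw [live_unique hT h1' h1 h2' h2]
      · rintro i σ ⟨s, ρ, h1, h2, rfl⟩
        simp
      · rintro z ⟨s, i, ρ, h1, h2, h3⟩
        exact ⟨i, _, ⟨s, ρ, h1, h2, rfl⟩, h3⟩
    have h2 : ¬ {z | Ini σ z} ⊆ V := by
      intro hcon
      have h3 := (measure_mono hcon).trans h1
      rw [coin_ini, hc, pow_succ] at h3
      have h4 : (2⁻¹ : ENNReal) ^ σ.length ≠ 0 := by simp
      have h5 : (2⁻¹ : ENNReal) ^ σ.length ≠ ⊤ := by simp
      have h6 : (2⁻¹ : ENNReal) ^ σ.length * 2⁻¹ < (2⁻¹ : ENNReal) ^ σ.length * 1 :=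
        ENNReal.mul_lt_mul_right h4 h5 (by norm_num)
      rw [mul_one] at h6
      exact absurd h3 (not_le.2 h6)
    rw [Set.not_subset] at h2
    obtain ⟨z, hz, hzV⟩ := h2
    refine ⟨seg z (max σ.length (c + N + 1)), hz.pre (le_max_left _ _), (hSiff _).2 ⟨c, ?_⟩⟩
    intro s i ρ h3 h4
    rw [cmp_false_iff]
    have h5 := hN s (i, ρ) h3 h4
    simp only at h5
    constructor
    · intro h6
      exact hzV ⟨s, i, ρ, h3, h4, ini_of_prefix h6⟩
    · intro h6
      have h7 := h6.length_le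
      rw [seg_length, word_length] at h7
      have := le_max_right σ.length (c + N + 1)
      omega
  obtain ⟨k, hk⟩ := hr S hS hdense
  obtain ⟨c, hc⟩ := (hSiff _).1 hk
  obtain ⟨s, e, he, hey⟩ := caught hTp hT hthin (prim_ctest hv.prim) c
    (fun i σ τ h h1 => conv_mono hv h h1) hy (fun i => exists_conv hv hx _)
  have h1 := (inv_st (T := T) (C := ctest v c) hT s).cond e he
  have h2 := hc s e.1 e.2 he (live_of_path hy hey)
  rw [word_eq (conv_val hv hx h1 hey), cmp_false_iff] at h2
  rcases le_total (c + e.1 + 1) k with h3 | h3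
  · exact h2.1 (seg_prefix x h3)
  · exact h2.2 (seg_prefix x h3)

end TwoRandom

section Weakly

variable {T : List Bool → Bool} (hTp : Primrec T)
  (hT : ∀ σ τ : List Bool, σ <+: τ → T τ = true → T σ = true)
  (hthin : IsThin {x | ∀ n, T (seg x n) = true})

/-- The `Π⁰₂` condition: `ρ` computes a long string of the tree, which computes the bit `n`. -/
def wcond (T : List Bool → Bool) (u v : List Bool → ℕ → Option ℕ) (a : ℕ × List Bool) : Bool :=
  decide (a.1 < a.2.length) && (List.range (a.2.length + 1)).any fun l =>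
    decide (a.1 ≤ l) && conv u a.2 l && T (word u a.2 l) &&
      decide (v (word u a.2 l) a.1 = (a.2[a.1]?).map Bool.toNat)

theorem wcond_iff {u v : List Bool → ℕ → Option ℕ} {n : ℕ} {ρ : List Bool} :
    wcond T u v (n, ρ) = true ↔ n < ρ.length ∧ ∃ l ≤ ρ.length, n ≤ l ∧ conv u ρ l = true ∧
      T (word u ρ l) = true ∧ v (word u ρ l) n = (ρ[n]?).map Bool.toNat := by
  simp only [wcond, Bool.and_eq_true, decide_eq_true_eq, List.any_eq_true, List.mem_range,
    Nat.lt_succ_iff, and_assoc]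

include hTp in
theorem prim_wcond {u v : List Bool → ℕ → Option ℕ} (hu : Primrec₂ u) (hv : Primrec₂ v) :
    Primrec (wcond T u v) := by
  refine Primrec.and.comp (PrimrecPred.decide (Primrec.nat_lt.comp Primrec.fst
    (Primrec.list_length.comp Primrec.snd))) ?_
  refine prim_any (Primrec.list_range.comp (Primrec.succ.comp
    (Primrec.list_length.comp Primrec.snd))) ?_
  have hn : Primrec fun b : (ℕ × List Bool) × ℕ => b.1.1 := Primrec.fst.comp Primrec.fst
  have hρ : Primrec fun b : (ℕ × List Bool) × ℕ => b.1.2 := Primrec.snd.comp Primrec.fst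
  have hw : Primrec fun b : (ℕ × List Bool) × ℕ => word u b.1.2 b.2 :=
    (prim_word hu).comp hρ Primrec.snd
  refine Primrec.and.comp (Primrec.and.comp (Primrec.and.comp ?_ ?_) ?_) ?_
  · exact PrimrecPred.decide (Primrec.nat_le.comp hn Primrec.snd)
  · exact (prim_conv hu).comp hρ Primrec.snd
  · exact hTp.comp hw
  · refine prim_beq (hv.comp hw hn) (Primrec.option_map (Primrec.list_getElem?.comp hρ hn) ?_)
    exact (Primrec.dom_finite Bool.toNat).comp Primrec.snd

include hTp hT hthin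

theorem not_weaklyTwoRandom {u v : List Bool → ℕ → Option ℕ} (hu : IsFun u) (hv : IsFun v)
    {x y : ℕ → Bool} (hy : ∀ n, T (seg y n) = true)
    (hx : Computes v y (fun n => (x n).toNat)) (hxy : Computes u x (fun n => (y n).toNat)) :
    ¬ WeaklyTwoRandom x := by
  intro hr
  have hnull : coin {z | ∀ n, ∃ k, wcond T u v (n, seg z k) = true} = 0 := by
    refine null_of_cover fun m hm => ?_
    obtain ⟨N, σ, hσ, hσ'⟩ := cover hTp hT hthin hv hm
    refine ⟨N, σ, hσ, ?_⟩
    · intro z hz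
      -- the member of the class computed from `z`
      have h1 : ∀ n, ∃ k, (u (seg z k) n).isSome = true := by
        intro n
        obtain ⟨k, hk⟩ := hz (n + 1)
        obtain ⟨_, l, _, hl, hconv, _⟩ := wcond_iff.1 hk
        exact ⟨k, conv_iff.1 hconv n (by omega)⟩
      choose k₀ hk₀ using h1
      let y' : ℕ → Bool := fun n => !decide ((u (seg z (k₀ n)) n).getD 0 = 0)
      have hword : ∀ k l, conv u (seg z k) l = true → word u (seg z k) l = seg y' l := by
        intro k l hkl
        show (List.range l).map (fun n => !decide ((u (seg z k) n).getD 0 = 0)) =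
          (List.range l).map y'
        refine List.map_congr_left fun n hn => ?_
        rw [List.mem_range] at hn
        obtain ⟨a, ha⟩ := Option.isSome_iff_exists.1 (conv_iff.1 hkl n hn)
        obtain ⟨b, hb⟩ := Option.isSome_iff_exists.1 (hk₀ n)
        have h2 := hu.mono (seg_prefix z (le_max_left k (k₀ n))) ha
        have h3 := hu.mono (seg_prefix z (le_max_right k (k₀ n))) hb
        have h4 : a = b := by
          rw [h2] at h3
          exact Option.some.inj h3
        have h5 : u (seg z k) n = u (seg z (k₀ n)) n := by rw [ha, hb, h4]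
        simp only [y', h5]
      have hy' : ∀ n, T (seg y' n) = true := by
        intro n
        obtain ⟨k, hk⟩ := hz n
        obtain ⟨_, l, _, hl, hconv, hTl, _⟩ := wcond_iff.1 hk
        rw [hword k l hconv] at hTl
        exact hT _ _ (seg_prefix y' hl) hTl
      have hz' : Computes v y' (fun n => (z n).toNat) := by
        intro n
        obtain ⟨k, hk⟩ := hz n
        obtain ⟨hnk, l, _, hl, hconv, _, hval⟩ := wcond_iff.1 hk
        rw [seg_length] at hnk
        rw [hword k l hconv, seg_getElem? z hnk] at hval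
        exact ⟨l, hval⟩
      exact hσ' z y' hy' hz'
  have hre : REPred fun a : ℕ × List Bool => wcond T u v a = true :=
    (ComputablePred.computable_iff.2 ⟨_, (prim_wcond hTp hu.prim hv.prim).to_comp, rfl⟩).to_re
  obtain ⟨n, hn⟩ := hr _ hre hnull
  obtain ⟨l₀, hl₀⟩ := hx n
  obtain ⟨k₀, hk₀⟩ := hxy.conv hu (max l₀ n)
  obtain ⟨k, hk⟩ : ∃ k, k = max k₀ (max (max l₀ n) (n + 1)) := ⟨_, rfl⟩
  have h1 : ∀ j < max l₀ n, u (seg x k) j = some (y j).toNat := fun j hj =>
    hu.mono (seg_prefix x (by omega)) (hk₀ j hj)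
  have h2 : word u (seg x k) (max l₀ n) = seg y (max l₀ n) := word_eq h1
  refine hn k (wcond_iff.2 ⟨by rw [seg_length]; omega, max l₀ n, by rw [seg_length]; omega,
    le_max_right _ _, ?_, ?_, ?_⟩)
  · rw [conv_iff]
    intro j hj
    rw [h1 j hj]
    rfl
  · rw [h2]; exact hy _
  · rw [h2, seg_getElem? x (by omega : n < k)]
    exact hv.mono (seg_prefix y (le_max_left _ _)) hl₀

end Weakly

section Dnc

variable {T : List Bool → Bool} (hTp : Primrec T)
  (hT : ∀ σ τ : List Bool, σ <+: τ → T τ = true → T σ = true)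
  (hthin : IsThin {x | ∀ n, T (seg x n) = true})

/-- The diagonal index. -/
def hidx (r i : ℕ) : ℕ := encode (Code.curry (Denumerable.ofNat Code r) i)

theorem prim_hidx : Primrec₂ hidx := by
  refine Primrec.encode.comp (Code.primrec₂_curry.comp ((Primrec.ofNat Code).comp Primrec.fst)
    Primrec.snd)

/-- The conditions for the diagonal argument. -/
def dcond (v : List Bool → ℕ → Option ℕ) (r i : ℕ) (ρ : List Bool) : Bool :=
  (v ρ (hidx r i)).isSome

theorem prim_dcond {v : List Bool → ℕ → Option ℕ} (hv : Primrec₂ v) :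
    Primrec fun a : ℕ × ℕ × List Bool => dcond v a.1 a.2.1 a.2.2 :=
  Primrec.option_isSome.comp (hv.comp (Primrec.snd.comp Primrec.snd)
    (prim_hidx.comp Primrec.fst (Primrec.fst.comp Primrec.snd)))

/-- The approximation at stage `s` to the value at the piece of the incarnation `i`. -/
def approx (T : List Bool → Bool) (v : List Bool → ℕ → Option ℕ) (r i s : ℕ) : Option ℕ :=
  ((st T (dcond v r) s).1.filterMap fun e =>
    bif decide (e.1 = i) && alive T s e.2 then v e.2 (hidx r i) else none).head?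

include hTp in
theorem prim_approx {v : List Bool → ℕ → Option ℕ} (hv : Primrec₂ v) :
    Primrec fun a : ℕ × ℕ × ℕ => approx T v a.1 a.2.1 a.2.2 := by
  have h1 : Primrec fun b : (ℕ × ℕ × ℕ) × (ℕ × List Bool) =>
      (decide (b.2.1 = b.1.2.1) && alive T b.1.2.2 b.2.2) := by
    refine Primrec.and.comp ?_ ?_
    · exact prim_beq (Primrec.fst.comp Primrec.snd)
        (Primrec.fst.comp (Primrec.snd.comp Primrec.fst))
    · exact (prim_alive hTp).comp (Primrec.snd.comp (Primrec.snd.comp Primrec.fst))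
        (Primrec.snd.comp Primrec.snd)
  have h2 : Primrec fun b : (ℕ × ℕ × ℕ) × (ℕ × List Bool) => v b.2.2 (hidx b.1.1 b.1.2.1) :=
    hv.comp (Primrec.snd.comp Primrec.snd) (prim_hidx.comp (Primrec.fst.comp Primrec.fst)
      (Primrec.fst.comp (Primrec.snd.comp Primrec.fst)))
  have h3 : Primrec₂ fun (a : ℕ × ℕ × ℕ) (e : ℕ × List Bool) =>
      bif (decide (e.1 = a.2.1) && alive T a.2.2 e.2) then v e.2 (hidx a.1 a.2.1) else none :=
    Primrec.cond h1 h2 (Primrec.const none)
  have h4 : Primrec fun a : ℕ × ℕ × ℕ => (st T (dcond v a.1) a.2.2).1 :=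
    Primrec.fst.comp ((prim_st hTp (prim_dcond hv)).comp Primrec.fst
      (Primrec.snd.comp Primrec.snd))
  exact Primrec.list_head?.comp (Primrec.listFilterMap h4 h3)

include hTp hT hthin

theorem not_jumpDNC {v : List Bool → ℕ → Option ℕ} (hv : IsFun v) {y : ℕ → Bool} {f : ℕ → ℕ}
    (hy : ∀ n, T (seg y n) = true) (hf : Computes v y f) : ¬ JumpDNC f := by
  intro hD
  let F : Code → ℕ →. ℕ := fun r m =>
    (approx T v (encode r) m.unpair.1 m.unpair.2.unpair.2 : Part ℕ)
  have hF : Partrec₂ F := by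
    have hu : Primrec fun a : Code × ℕ => Nat.unpair a.2 := Primrec.unpair.comp Primrec.snd
    have ha : Primrec fun a : Code × ℕ => (Nat.unpair a.2).1 := Primrec.fst.comp hu
    have hb : Primrec fun a : Code × ℕ => (Nat.unpair a.2).2 := Primrec.snd.comp hu
    have hc : Primrec fun a : Code × ℕ => (Nat.unpair (Nat.unpair a.2).2).2 :=
      Primrec.snd.comp (Primrec.unpair.comp hb)
    have hd : Primrec fun a : Code × ℕ => encode a.1 := Primrec.encode.comp Primrec.fst
    have he : Primrec fun a : Code × ℕ =>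
        (encode a.1, (Nat.unpair a.2).1, (Nat.unpair (Nat.unpair a.2).2).2) := hd.pair (ha.pair hc)
    have h1 : Computable fun a : Code × ℕ =>
        approx T v (encode a.1) (Nat.unpair a.2).1 (Nat.unpair (Nat.unpair a.2).2).2 :=
      ((prim_approx hTp hv.prim).comp he).to_comp
    exact Computable.ofOption h1
  obtain ⟨r, hr⟩ := Code.fixed_point₂ hF
  obtain ⟨s₀, e, he, hey⟩ := caught hTp hT hthin (prim_dcond hv.prim) (encode r)
    (fun i σ τ h h1 => by
      obtain ⟨m, hm⟩ := Option.isSome_iff_exists.1 h1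
      unfold dcond
      rw [hv.mono h hm]
      rfl) hy (fun i => by
      obtain ⟨l, hl⟩ := hf (hidx (encode r) i)
      refine ⟨l, ?_⟩
      unfold dcond
      rw [hl]
      rfl)
  have h1 := (inv_st (T := T) (C := dcond v (encode r)) hT s₀).cond e he
  obtain ⟨m, hm⟩ := Option.isSome_iff_exists.1 h1
  have hm' := hf.eq hv hey hm
  have hidx' : hidx (encode r) e.1 = encode (Code.curry r e.1) := by
    simp [hidx]
  rw [hidx'] at hm'
  refine hD (Code.curry r e.1) m ⟨s₀, fun s hs => ?_⟩ hm'.symm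
  rw [Code.eval_curry, hr]
  simp only [F, Nat.unpair_pair, Part.mem_coe, Option.mem_def]
  have h2 : (e.1, e.2) ∈ (st T (dcond v (encode r)) s).1 := (hist_mono hs).subset he
  have h3 : m ∈ (st T (dcond v (encode r)) s).1.filterMap fun e' =>
      bif decide (e'.1 = e.1) && alive T s e'.2 then v e'.2 (hidx (encode r) e.1) else none := by
    rw [List.mem_filterMap]
    refine ⟨e, h2, ?_⟩
    simp [alive_of_path hy hey s, hm]
  have h4 : ∀ m' ∈ (st T (dcond v (encode r)) s).1.filterMap fun e' =>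
      bif decide (e'.1 = e.1) && alive T s e'.2 then v e'.2 (hidx (encode r) e.1) else none,
      m' = m := by
    intro m' hm'
    rw [List.mem_filterMap] at hm'
    obtain ⟨e', he', h5⟩ := hm'
    cases h6 : decide (e'.1 = e.1) && alive T s e'.2 with
    | false => rw [h6] at h5; simp at h5
    | true =>
      rw [h6, cond_true] at h5
      rw [Bool.and_eq_true, decide_eq_true_eq] at h6
      rcases (inv_st (T := T) (C := dcond v (encode r)) hT s).uniq e h2 e' he' h6.1 with
        h7 | h7 | h7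
      · rw [h7, hm] at h5
        exact (Option.some.inj h5).symm
      · rw [alive_of_path hy hey s] at h7
        exact absurd h7 (by simp)
      · rw [h6.2] at h7
        exact absurd h7 (by simp)
  unfold approx
  cases h5 : ((st T (dcond v (encode r)) s).1.filterMap fun e' =>
      bif decide (e'.1 = e.1) && alive T s e'.2 then v e'.2 (hidx (encode r) e.1) else none) with
  | nil => rw [h5] at h3; simp at h3
  | cons a l =>
    rw [List.head?_cons, h4 a (by rw [h5]; simp)]

end Dnc

end Pool.Agent.H77.Thin
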