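import Pool.Agent.H77.Thin.Prim
import Pool.Agent.H77.Thin.Use

/-!
# Functionals on strings and primitive recursive trees
-/

set_option autoImplicit false

namespace Pool.Agent.H77.Thin

open Encodable Nat.Partrec

/-- The value at `n` of the functional with code `c`, as computed from the string `σ` within
`|σ|` steps. -/
def val (c : Code) (σ : List Bool) (n : ℕ) : Option ℕ :=
  ((List.range (σ.length + 1)).filterMap fun j =>
    Code.evaln σ.length c (encode (σ.take j, n))).head?

theorem prim_val (c : Code) : Primrec₂ (val c) := by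
  have h1 : Primrec fun a : List Bool × ℕ => List.range (a.1.length + 1) :=
    Primrec.list_range.comp (Primrec.succ.comp (Primrec.list_length.comp Primrec.fst))
  have h2 : Primrec₂ fun (a : List Bool × ℕ) (j : ℕ) =>
      Code.evaln a.1.length c (encode (a.1.take j, a.2)) := by
    refine Code.primrec_evaln.comp (Primrec.pair (Primrec.pair
      (Primrec.list_length.comp (Primrec.fst.comp Primrec.fst)) (Primrec.const c)) ?_)
    exact Primrec.encode.comp (Primrec.pair (prim_take Primrec.snd (Primrec.fst.comp Primrec.fst))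
      (Primrec.snd.comp Primrec.fst))
  exact Primrec.list_head?.comp (Primrec.listFilterMap h1 h2)

/-- A primitive recursive monotone functional on strings. -/
structure IsFun (v : List Bool → ℕ → Option ℕ) : Prop where
  prim : Primrec₂ v
  mono : ∀ {σ τ : List Bool} {n m : ℕ}, σ <+: τ → v σ n = some m → v τ n = some m

/-- The functional `v` computes `f` from `y`. -/
def Computes (v : List Bool → ℕ → Option ℕ) (y : ℕ → Bool) (f : ℕ → ℕ) : Prop :=
  ∀ n, ∃ l, v (seg y l) n = some (f n)

theorem Computes.eq {v : List Bool → ℕ → Option ℕ} (hv : IsFun v) {y : ℕ → Bool} {f : ℕ → ℕ}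
    (h : Computes v y f) {ρ : List Bool} (hρ : Ini ρ y) {n m : ℕ} (hm : v ρ n = some m) :
    m = f n := by
  obtain ⟨l, hl⟩ := h n
  have h1 := hv.mono (hρ.pre (le_max_left ρ.length l)) hm
  have h2 := hv.mono (seg_prefix y (le_max_right ρ.length l)) hl
  rw [h1] at h2
  exact Option.some.inj h2

theorem Computes.conv {v : List Bool → ℕ → Option ℕ} (hv : IsFun v) {y : ℕ → Bool} {f : ℕ → ℕ}
    (h : Computes v y f) (N : ℕ) : ∃ l, ∀ n < N, v (seg y l) n = some (f n) := by
  induction N with
  | zero => exact ⟨0, by simp⟩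
  | succ N ih =>
    obtain ⟨l, hl⟩ := ih
    obtain ⟨k, hk⟩ := h N
    refine ⟨max l k, fun n hn => ?_⟩
    rcases Nat.lt_succ_iff_lt_or_eq.1 hn with h1 | h1
    · exact hv.mono (seg_prefix y (le_max_left _ _)) (hl n h1)
    · rw [h1]; exact hv.mono (seg_prefix y (le_max_right _ _)) hk

section Sound

variable {c₀ : OCode} {c : Code}
  (hc : ∀ (σ : List Bool) (n : ℕ), c.eval (encode (σ, n)) = c₀.eval (bo σ) n)

include hc

theorem val_sound {σ : List Bool} {n m : ℕ} (h : val c σ n = some m) :
    ∃ j ≤ σ.length, m ∈ c₀.eval (bo (σ.take j)) n := by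
  unfold val at h
  have h1 := List.mem_of_mem_head? (Option.mem_def.2 h)
  rw [List.mem_filterMap] at h1
  obtain ⟨j, hj, h2⟩ := h1
  rw [List.mem_range] at hj
  refine ⟨j, by omega, ?_⟩
  rw [← hc]
  exact Code.evaln_sound (Option.mem_def.2 h2)

theorem isFun_val : IsFun (val c) := by
  refine ⟨prim_val c, ?_⟩
  intro σ τ n m hστ hm
  have hle := hστ.length_le
  unfold val at hm
  have h1 := List.mem_of_mem_head? (Option.mem_def.2 hm)
  rw [List.mem_filterMap] at h1
  obtain ⟨j, hj, h2⟩ := h1
  rw [List.mem_range] at hj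
  have htake : ∀ q, q ≤ j → τ.take q = σ.take q := by
    intro q hq
    rw [List.prefix_iff_eq_take] at hστ
    rw [hστ, List.take_take, min_eq_left (by omega)]
  have h3 : Code.evaln τ.length c (encode (τ.take j, n)) = some m := by
    rw [htake j le_rfl]
    exact Option.mem_def.1 (Code.evaln_mono hle (Option.mem_def.2 h2))
  obtain ⟨q, hq, b, hb, hb'⟩ := head_filterMap_range
    (fun j => Code.evaln τ.length c (encode (τ.take j, n))) (τ.length + 1) (q₀ := j)
    (by omega) h3
  have h4 : val c τ n = some b := hb'
  have h5 : b ∈ c₀.eval (bo (τ.take q)) n := by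
    rw [← hc]
    exact Code.evaln_sound (Option.mem_def.2 hb)
  have h6 : m ∈ c₀.eval (bo (τ.take j)) n := by
    rw [← hc]
    exact Code.evaln_sound (Option.mem_def.2 h3)
  have h7 : b ∈ c₀.eval (bo (τ.take j)) n :=
    OCode.eval_mono (fun k v => bo_mono (List.take_prefix_take_left hq) k v) c₀ n b h5
  rw [h4, Part.mem_unique h7 h6]

theorem computes_val {y : ℕ → Bool} {f : ℕ → ℕ}
    (hf : c₀.eval (chr y) = fun n => Part.some (f n)) : Computes (val c) y f := by
  intro n
  have h1 : f n ∈ c₀.eval (chr y) n := by
    rw [hf]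
    exact Part.mem_some _
  obtain ⟨l, hl⟩ := eval_compact y c₀ n (f n) h1
  rw [← hc] at hl
  obtain ⟨k, hk⟩ := Code.evaln_complete.1 hl
  refine ⟨max l k, ?_⟩
  have h2 : Code.evaln (seg y (max l k)).length c (encode ((seg y (max l k)).take l, n)) =
      some (f n) := by
    rw [seg_length, seg_take y (le_max_left _ _)]
    exact Option.mem_def.1 (Code.evaln_mono (le_max_right l k) hk)
  obtain ⟨q, hq, b, hb, hb'⟩ := head_filterMap_range
    (fun j => Code.evaln (seg y (max l k)).length c (encode ((seg y (max l k)).take j, n)))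
    ((seg y (max l k)).length + 1) (q₀ := l) (by rw [seg_length]; omega) h2
  have h4 : val c (seg y (max l k)) n = some b := hb'
  have h5 : b ∈ c₀.eval (bo ((seg y (max l k)).take q)) n := by
    rw [← hc]
    exact Code.evaln_sound (Option.mem_def.2 hb)
  rw [seg_take y (by omega)] at h5
  have h6 := OCode.eval_mono (bo_seg_le y q) c₀ n b h5
  rw [hf, Part.mem_some_iff] at h6
  rw [h4, h6]

end Sound

theorem exists_code_of_partrec₂ {g : List Bool → ℕ →. ℕ} (hg : Partrec₂ g) :
    ∃ c : Code, ∀ (σ : List Bool) (n : ℕ), c.eval (encode (σ, n)) = g σ n := by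
  have h1 : Nat.Partrec fun m => Part.bind (↑(decode (α := List Bool × ℕ) m))
      fun a : List Bool × ℕ => (g a.1 a.2).map encode := hg
  obtain ⟨c, hc⟩ := Code.exists_code.1 h1
  refine ⟨c, fun σ n => ?_⟩
  rw [hc]
  simp only [encodek, Part.coe_some, Part.bind_some]
  exact Part.map_id' (fun _ => rfl) _

/-- A function computable from `y` is computed by a functional on strings with a code. -/
theorem exists_val {y : ℕ → Bool} {f : ℕ → ℕ}
    (h : TuringReducible (fun n => Part.some (f n)) (chr y)) :
    ∃ c : Code, IsFun (val c) ∧ Computes (val c) y f := by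
  obtain ⟨c₀, hc₀⟩ := (OCode.recursiveIn_iff _ _).1 (RecursiveIn.iff_nat.1 h)
  obtain ⟨c, hc⟩ := exists_code_of_partrec₂ (eval_bo_partrec c₀)
  exact ⟨c, isFun_val hc, computes_val hc hc₀⟩

/-! ### Trees -/

/-- The primitive recursive tree approximating the computable tree whose characteristic function
has code `c`. -/
def tree (c : Code) (σ : List Bool) : Bool :=
  (List.range (σ.length + 1)).all fun j =>
    !decide (Code.evaln σ.length c (encode (σ.take j)) = some 0)

theorem tree_iff {c : Code} {σ : List Bool} : tree c σ = true ↔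
    ∀ j ≤ σ.length, Code.evaln σ.length c (encode (σ.take j)) ≠ some 0 := by
  simp only [tree, List.all_eq_true, List.mem_range, Bool.not_eq_true', decide_eq_false_iff_not,
    Nat.lt_succ_iff]

theorem prim_tree (c : Code) : Primrec (tree c) := by
  refine prim_all (Primrec.list_range.comp (Primrec.succ.comp Primrec.list_length)) ?_
  refine Primrec.not.comp (prim_beq ?_ (Primrec.const _))
  exact Code.primrec_evaln.comp (Primrec.pair (Primrec.pair
      (Primrec.list_length.comp Primrec.fst) (Primrec.const c))
      (Primrec.encode.comp (prim_take Primrec.snd Primrec.fst)))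

theorem tree_closed (c : Code) (σ τ : List Bool) (h : σ <+: τ) (hτ : tree c τ = true) :
    tree c σ = true := by
  rw [tree_iff] at hτ ⊢
  intro j hj hcon
  have hle := h.length_le
  refine hτ j (by omega) ?_
  have : τ.take j = σ.take j := by
    rw [List.prefix_iff_eq_take] at h
    rw [h, List.take_take, min_eq_left (by omega)]
  rw [this]
  exact Option.mem_def.1 (Code.evaln_mono hle (Option.mem_def.2 hcon))

theorem exists_tree {P : Set (ℕ → Bool)} (h : IsPi01 P) :
    ∃ c : Code, P = {x | ∀ n, tree c (seg x n) = true} := by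
  obtain ⟨T, ⟨hD, hTc⟩, hT, rfl⟩ := h
  have h1 : Nat.Partrec fun m => Part.bind (decode (α := List Bool) m)
      fun a => (Part.some (decide (T a))).map encode := hTc
  obtain ⟨c, hc⟩ := Code.exists_code.1 h1
  have hc' : ∀ σ : List Bool, c.eval (encode σ) = Part.some (encode (decide (T σ))) := by
    intro σ
    rw [hc]
    simp
  refine ⟨c, ?_⟩
  ext x
  simp only [Set.mem_ofPred_eq]
  constructor
  · intro h n
    rw [tree_iff]
    intro j hj hcon
    rw [seg_length] at hj
    rw [seg_take x hj] at hcon
    have h2 := Code.evaln_sound (Option.mem_def.2 hcon)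
    rw [hc', Part.mem_some_iff] at h2
    simp [h j] at h2
  · intro h n
    by_contra hcon
    have h2 : (0 : ℕ) ∈ c.eval (encode (seg x n)) := by
      rw [hc', Part.mem_some_iff]
      simp [hcon]
    obtain ⟨k, hk⟩ := Code.evaln_complete.1 h2
    have h3 := h (max n k)
    rw [tree_iff] at h3
    refine h3 n (by rw [seg_length]; exact le_max_left _ _) ?_
    rw [seg_length, seg_take x (le_max_left _ _)]
    exact Option.mem_def.1 (Code.evaln_mono (le_max_right n k) hk)

end Pool.Agent.H77.Thin
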